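import Pool.Agent.H79.AB.Pull
import Pool.Agent.H79.L.Q290_NF_BelRad

/-!
# abc over `K` implies the inequality for all Galois stable sets
-/

set_option autoImplicit false

namespace Pool.Agent.H79.AB

open NumberField IsDedekindDomain Height Polynomial Pool.Agent.N757.RD Pool.Agent.N757.TL
  Pool.Agent.N746.RK Pool.Agent.Q290.NF

variable {K : Type} [Field K] [NumberField K]

theorem dvd_of_roots {P R : K[X]} (ι : K →ₐ[ℚ] Om) (hP : Squarefree P) (hR : R ≠ 0)
    (h : ∀ x : Om, (P.map (ι : K →+* Om)).eval x = 0 → (R.map (ι : K →+* Om)).eval x = 0) :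
    P ∣ R := by
  have hP0 : P ≠ 0 := hP.ne_zero
  have hPm : P.map (ι : K →+* Om) ≠ 0 := by
    rw [Ne, Polynomial.map_eq_zero]
    exact hP0
  have hRm : R.map (ι : K →+* Om) ≠ 0 := by
    rw [Ne, Polynomial.map_eq_zero]
    exact hR
  rw [← map_dvd_map' (ι : K →+* Om)]
  have hs : (P.map (ι : K →+* Om)).Splits := IsAlgClosed.splits _
  have h1 := hs.eq_prod_roots
  rw [h1]
  have hlc : IsUnit (C (P.map (ι : K →+* Om)).leadingCoeff) :=
    isUnit_C.2 (isUnit_iff_ne_zero.2 (leadingCoeff_ne_zero.2 hPm))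
  rw [hlc.mul_left_dvd]
  have hsep : P.Separable := PerfectField.separable_iff_squarefree.2 hP
  have hnd : (P.map (ι : K →+* Om)).roots.Nodup := nodup_roots hsep.map
  rw [Multiset.prod_X_sub_C_dvd_iff_le_roots hRm, Multiset.le_iff_subset hnd]
  intro a ha
  rw [mem_roots hPm] at ha
  rw [mem_roots hRm]
  exact h a ha

/-- **abc over `K` implies the inequality for `∞` and the zeros of `P`.** -/
theorem of_ABC {P : K[X]} (hP : Squarefree P) (h2 : 2 ≤ P.natDegree) (h : ABC K) : V P := by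
  classical
  obtain ⟨ι⟩ : Nonempty (K →ₐ[ℚ] Om) := ⟨IsAlgClosed.lift⟩
  obtain ⟨f, hf, hT, hcrit⟩ := belyi (P.map (ι : K →+* Om)).roots.toFinset
  obtain ⟨R, hR, hRd, hRr, M, hM⟩ := radical_poly hf hcrit
  obtain ⟨Q, hQ⟩ := hM
  obtain ⟨F, hF⟩ : ∃ F : K[X], F = f.map (algebraMap ℚ K) := ⟨_, rfl⟩
  obtain ⟨D', hD'⟩ : ∃ D' : K[X], D' = (derivative f).map (algebraMap ℚ K) := ⟨_, rfl⟩
  obtain ⟨Rk, hRk⟩ : ∃ Rk : K[X], Rk = R.map (algebraMap ℚ K) := ⟨_, rfl⟩
  obtain ⟨Qk, hQk⟩ : ∃ Qk : K[X], Qk = Q.map (algebraMap ℚ K) := ⟨_, rfl⟩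
  have e1 : F * (F - 1) = D' * Rk := by
    rw [hF, hD', hRk, ← Polynomial.map_mul, ← hR, Polynomial.map_mul, Polynomial.map_sub,
      Polynomial.map_one]
  have e2 : Rk ^ M = D' * Qk := by
    rw [hD', hRk, hQk, ← Polynomial.map_mul, ← hQ, Polynomial.map_pow]
  have hFd : F.natDegree = f.natDegree := by rw [hF, natDegree_map]
  have hRkd : Rk.natDegree = f.natDegree + 1 := by rw [hRk, natDegree_map, hRd]
  have hRk0 : Rk ≠ 0 := by
    rintro h0
    rw [h0, natDegree_zero] at hRkd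
    omega
  have hmap : ∀ (g : ℚ[X]) (x : Om),
      ((g.map (algebraMap ℚ K)).map (ι : K →+* Om)).eval x = aeval x g := by
    intro g x
    rw [Polynomial.map_map, eval_map, aeval_def]
    congr 1
    exact RingHom.ext fun q => by simp
  have hPR : P ∣ Rk := by
    refine dvd_of_roots ι hP hRk0 fun x hx => ?_
    have hPm : P.map (ι : K →+* Om) ≠ 0 := by
      rw [Ne, Polynomial.map_eq_zero]
      exact hP.ne_zero
    have h1 := hT x (by
      rw [Multiset.mem_toFinset, mem_roots hPm]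
      exact hx)
    rw [hRk, hmap]
    exact hRr x h1
  refine V_dvd hRk0 h2 hPR ?_
  rw [← V_three] at h
  refine pull (F := X * (X - 1)) (A := F) (B := 1) (H := F * (F - 1)) (M := Qk) (k := M + 1)
    (n := f.natDegree) hf hFd.le (by rw [natDegree_one]; omega) (Or.inl hFd) isCoprime_one_right
    natDegree_three.ge (by omega) (by rw [natDegree_three]; omega) ?_ ?_ h
  · intro x _
    simp only [eval_mul, eval_sub, eval_X, eval_one, div_one, one_pow, one_mul]
  · rw [pow_succ, e2, one_mul, e1]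
    ring

end Pool.Agent.H79.AB
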