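import Pool.Agent.H79.AB.Gen

/-!
# Every number field
-/

set_option autoImplicit false
set_option linter.unusedSectionVars false

namespace Pool.Agent.H79.AB

open NumberField Polynomial Pool.Agent.N746.RK Pool.Agent.N757.RD Pool.Agent.N757.TL
open scoped IntermediateField

section maps

variable {k k' : Type} [Field k] [Field k'] {ι : Type} [Fintype ι] [DecidableEq ι]

theorem mP_map (f : k →+* k') (a : ι → k) (n : ι → ℕ) :
    (mP a n).map f = mP (fun i => f (a i)) n := by
  unfold mP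
  rw [Polynomial.map_prod]
  simp

theorem mH_map (f : k →+* k') (a : ι → k) (e : ι → ℤ) :
    (mH a e).map f = mH (fun i => f (a i)) e := by
  unfold mH mE
  rw [Polynomial.map_sum]
  simp [Polynomial.map_prod]

theorem hm_map (f : k →+* k') (m : ℕ) (P A B : k[X]) :
    (hm m P A B).map f = hm m (P.map f) (A.map f) (B.map f) := by
  unfold hm
  rw [Polynomial.map_sum]
  simp

/-- evaluation in a larger field -/
theorem hm_aeval {E : Type} [Field E] [Algebra k E] {m : ℕ} {P A B : k[X]} (hP : P.natDegree ≤ m)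
    {x : E} (hx : aeval x B ≠ 0) :
    aeval x (hm m P A B) = aeval x B ^ m * aeval (aeval x A / aeval x B) P := by
  have h := hm_eval (m := m) (P := P.map (algebraMap k E)) (A := A.map (algebraMap k E))
    (B := B.map (algebraMap k E)) (x := x) (natDegree_map_le.trans hP)
    (by rwa [eval_map_algebraMap])
  rw [← hm_map] at h
  simpa only [eval_map_algebraMap] using h

theorem aeval_mP {E : Type} [Field E] [Algebra k E] (x : E) (a : ι → k) (n : ι → ℕ) :
    aeval x (mP a n) = ∏ i, (x - algebraMap k E (a i)) ^ n i := by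
  unfold mP
  rw [map_prod]
  simp

/-- the value of the quotient -/
theorem prod_zpow {E : Type} [Field E] (x : ι → E) (hx : ∀ i, x i ≠ 0) (e : ι → ℤ) :
    ∏ i, x i ^ e i = (∏ i, x i ^ (e i).toNat) / ∏ i, x i ^ (-e i).toNat := by
  rw [← Finset.prod_div_distrib]
  refine Finset.prod_congr rfl fun i _ => ?_
  have h := Int.toNat_sub_toNat_neg (e i)
  conv_lhs => rw [← h]
  rw [zpow_sub₀ (hx i), zpow_natCast, zpow_natCast]

/-- the condition on the critical values, at one critical point -/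
theorem crit_value {E : Type} [Field E] [Algebra k E] {a : ι → k} {e : ι → ℤ} {P : k[X]} {θ : E}
    (hθ : ∀ i, θ ≠ algebraMap k E (a i))
    (h : aeval (∏ i, (θ - algebraMap k E (a i)) ^ e i) P = 0) :
    aeval θ (hm P.natDegree P (mP a fun i => (e i).toNat) (mP a fun i => (-e i).toNat)) = 0 := by
  have hx : ∀ i, θ - algebraMap k E (a i) ≠ 0 := fun i => sub_ne_zero.2 (hθ i)
  rw [prod_zpow _ hx] at h
  rw [hm_aeval le_rfl]
  · rw [aeval_mP, aeval_mP, h, mul_zero]
  · rw [aeval_mP]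
    exact Finset.prod_ne_zero_iff.2 fun i _ => pow_ne_zero _ (hx i)

end maps

/-- the exponents -/
theorem exponents {ι : Type} [Fintype ι] [DecidableEq ι] {H : ℤ[X]} (hm : H.Monic)
    (hι : Fintype.card ι = H.natDegree + 1) {a : ι → ℤ} (ha : Function.Injective a)
    (hH : ∀ i, H.eval (a i) ≠ 0) :
    ∃ (e : ι → ℤ) (M : ℤ), (∀ i, e i ≠ 0) ∧ M ≠ 0 ∧ ∑ i, e i = M ∧
      mH (fun i => (a i : ℚ)) e = C (M : ℚ) * H.map (Int.castRingHom ℚ) := by
  obtain ⟨d, hd⟩ : ∃ d : ι → ℤ, ∀ i, d i = ∏ j ∈ Finset.univ.erase i, (a i - a j) := ⟨_, fun _ => rfl⟩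
  have hd0 : ∀ i, d i ≠ 0 := fun i => by
    rw [hd]
    refine Finset.prod_ne_zero_iff.2 fun j hj => sub_ne_zero.2 fun h => ?_
    exact (Finset.mem_erase.1 hj).1 (ha h).symm
  obtain ⟨M, hM⟩ : ∃ M : ℤ, M = ∏ i, d i := ⟨_, rfl⟩
  have hM0 : M ≠ 0 := by rw [hM]; exact Finset.prod_ne_zero_iff.2 fun i _ => hd0 i
  have hMi : ∀ i, M = d i * ∏ j ∈ Finset.univ.erase i, d j := fun i => by
    rw [hM]
    exact (Finset.mul_prod_erase Finset.univ d (Finset.mem_univ i)).symm
  obtain ⟨e, he⟩ : ∃ e : ι → ℤ, ∀ i, e i = H.eval (a i) * ∏ j ∈ Finset.univ.erase i, d j :=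
    ⟨_, fun _ => rfl⟩
  have he0 : ∀ i, e i ≠ 0 := fun i => by
    rw [he]
    exact mul_ne_zero (hH i) (Finset.prod_ne_zero_iff.2 fun j _ => hd0 j)
  have hdq : ∀ i, (mE (fun i => (a i : ℚ)) i).eval (a i : ℚ) = (d i : ℚ) := fun i => by
    rw [mE_eval, hd]
    push_cast
    rfl
  have key : mH (fun i => (a i : ℚ)) e = C (M : ℚ) * H.map (Int.castRingHom ℚ) := by
    rw [← sub_eq_zero]
    refine eq_zero_of_natDegree_lt_card_of_eval_eq_zero _ (f := fun i => (a i : ℚ))
      (fun i j h => ha (Int.cast_injective (α := ℚ) h)) (fun i => ?_) ?_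
    · rw [eval_sub, mH_eval (fun i => (a i : ℚ)) e i, hdq, eval_mul, eval_C,
        ← eq_intCast (Int.castRingHom ℚ) (a i), eval_map, eval₂_at_apply, hMi i, he i]
      simp only [eq_intCast]
      push_cast
      ring
    · refine lt_of_le_of_lt (natDegree_sub_le _ _) (max_lt ?_ ?_)
      · have := mH_deg_le (fun i => (a i : ℚ)) e
        omega
      · refine lt_of_le_of_lt (natDegree_C_mul_le _ _) (lt_of_le_of_lt natDegree_map_le ?_)
        omega
  refine ⟨e, M, he0, hM0, ?_, key⟩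
  have h1 := mH_coeff (fun i => (a i : ℚ)) e
  rw [key, hι, Nat.add_sub_cancel, coeff_C_mul, coeff_map, hm.coeff_natDegree, map_one,
    mul_one] at h1
  exact_mod_cast h1.symm

theorem integral_generator (L : Type) [Field L] [NumberField L] :
    ∃ θ : L, IsIntegral ℤ θ ∧ ℚ⟮θ⟯ = ⊤ := by
  obtain ⟨θ, hθ⟩ := Field.exists_primitive_element ℚ L
  have h1 : IsAlgebraic ℤ θ :=
    (IsFractionRing.isAlgebraic_iff ℤ ℚ L).2 (Algebra.IsAlgebraic.isAlgebraic θ)
  obtain ⟨y, hy, hi⟩ := h1.exists_integral_multiple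
  refine ⟨y • θ, hi, top_unique ?_⟩
  rw [← hθ, IntermediateField.adjoin_simple_le_iff]
  have h2 : θ = ((y : ℚ)⁻¹ : ℚ) • (y • θ) := by
    rw [← Int.cast_smul_eq_zsmul ℚ, smul_smul, inv_mul_cancel₀ (by exact_mod_cast hy), one_smul]
  have h3 : ((y : ℚ)⁻¹ : ℚ) • (y • θ) ∈ ℚ⟮y • θ⟯ :=
    (ℚ⟮y • θ⟯).smul_mem (IntermediateField.mem_adjoin_simple_self ℚ (y • θ))
  rwa [← h2] at h3

/-- **Every number field.** -/
theorem every (L : Type) [Field L] [NumberField L] :
    ∃ γ : L, ℚ⟮γ⟯ = ⊤ ∧ ∀ (K : Type) [Field K] [NumberField K],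
      Squarefree (X * (minpoly ℚ γ).map (algebraMap ℚ K)) ∧
      2 ≤ (X * (minpoly ℚ γ).map (algebraMap ℚ K)).natDegree ∧
      (V (X * (minpoly ℚ γ).map (algebraMap ℚ K)) → ABC K) := by
  -- general facts
  have gen1 : ∀ γ : L, γ ≠ 0 → ∀ (K : Type) [Field K] [NumberField K],
      Squarefree (X * (minpoly ℚ γ).map (algebraMap ℚ K)) ∧
      2 ≤ (X * (minpoly ℚ γ).map (algebraMap ℚ K)).natDegree ∧
      ((minpoly ℚ γ).map (algebraMap ℚ K)).eval 0 ≠ 0 ∧
      1 ≤ ((minpoly ℚ γ).map (algebraMap ℚ K)).natDegree := by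
    intro γ hγ K _ _
    have hint : IsIntegral ℚ γ := IsIntegral.of_finite ℚ γ
    have h0 : ((minpoly ℚ γ).map (algebraMap ℚ K)).eval 0 ≠ 0 := by
      rw [← coeff_zero_eq_eval_zero, coeff_map]
      exact (_root_.map_ne_zero _).2 (minpoly.coeff_zero_ne_zero hint hγ)
    have hd : 1 ≤ ((minpoly ℚ γ).map (algebraMap ℚ K)).natDegree := by
      rw [natDegree_map]
      exact minpoly.natDegree_pos hint
    have hne : (minpoly ℚ γ).map (algebraMap ℚ K) ≠ 0 := fun h => by
      rw [h, natDegree_zero] at hd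
      omega
    have hsep : ((minpoly ℚ γ).map (algebraMap ℚ K)).Separable :=
      (minpoly.irreducible hint).separable.map
    refine ⟨?_, ?_, h0, hd⟩
    · have hcop : IsCoprime (X : K[X]) ((minpoly ℚ γ).map (algebraMap ℚ K)) := by
        rw [irreducible_X.coprime_iff_not_dvd, X_dvd_iff, coeff_zero_eq_eval_zero]
        exact h0
      exact (squarefree_mul_iff.2 ⟨hcop.isRelPrime, irreducible_X.squarefree, hsep.squarefree⟩)
    · rw [natDegree_mul X_ne_zero hne, natDegree_X]
      omega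
  obtain ⟨θ, hint, hgen⟩ := integral_generator L
  have hmin : minpoly ℚ θ = (minpoly ℤ θ).map (Int.castRingHom ℚ) :=
    minpoly.isIntegrallyClosed_eq_field_fractions' ℚ hint
  obtain ⟨H, hH⟩ : ∃ H, H = minpoly ℤ θ := ⟨_, rfl⟩
  rw [← hH] at hmin
  have hm : H.Monic := hH ▸ minpoly.monic hint
  have hdeg : H.natDegree = (minpoly ℚ θ).natDegree := by
    rw [hmin, hm.natDegree_map]
  have hintq : IsIntegral ℚ θ := IsIntegral.of_finite ℚ θ
  have hpos : 1 ≤ H.natDegree := hdeg ▸ minpoly.natDegree_pos hintq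
  have hirr : Irreducible (H.map (Int.castRingHom ℚ)) := hmin ▸ minpoly.irreducible hintq
  rcases Nat.eq_or_lt_of_le hpos with h1 | h1
  · -- degree one
    refine ⟨1, ?_, fun K _ _ => ?_⟩
    · have h2 : Module.finrank ℚ L = 1 := by
        rw [← (Field.primitive_element_iff_minpoly_natDegree_eq ℚ θ).1 hgen, ← hdeg, ← h1]
      rw [IntermediateField.adjoin_simple_eq_bot_iff.2 (one_mem _)]
      exact IntermediateField.bot_eq_top_iff_finrank_eq_one.2 h2
    · obtain ⟨g1, g2, g3, g4⟩ := gen1 1 one_ne_zero K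
      refine ⟨g1, g2, fun h => ?_⟩
      rw [minpoly.one, Polynomial.map_sub, Polynomial.map_X, Polynomial.map_one] at h
      exact V_three.1 h
  · -- degree at least two
    have hH0 : ∀ n : ℤ, H.eval n ≠ 0 := by
      intro n hn
      have h2 : (H.map (Int.castRingHom ℚ)).IsRoot (n : ℚ) := by
        rw [IsRoot.def, ← eq_intCast (Int.castRingHom ℚ) n, eval_map, eval₂_at_apply, hn, map_zero]
      have h3 : (H.map (Int.castRingHom ℚ)).natDegree = 1 :=
        natDegree_eq_of_degree_eq_some (degree_eq_one_of_irreducible_of_root hirr h2)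
      rw [hm.natDegree_map] at h3
      omega
    obtain ⟨q, a₀, b, hq, hqa, hqa', hqb⟩ := exists_q hm hirr.separable hpos (hH0 0)
    obtain ⟨a, ha⟩ : ∃ a : Fin (H.natDegree + 1) → ℤ,
      ∀ i, a i = if i = 0 then a₀ else b + q * (i : ℕ) := ⟨_, fun _ => rfl⟩
    have hq0 : (q : ℤ) ≠ 0 := by exact_mod_cast hq.ne_zero
    have hdiv : ∀ x y : ℤ, (q : ℤ) ∣ x - y → (q : ℤ) ∣ H.eval x → (q : ℤ) ∣ H.eval y := by
      intro x y h2 h3
      have h4 := h2.trans (sub_dvd_eval_sub x y H)
      have h5 := h3.sub h4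
      rwa [sub_sub_cancel] at h5
    have hai : ∀ i, i ≠ 0 → ¬ (q : ℤ) ∣ H.eval (a i) := by
      intro i hi h2
      apply hqb
      refine hdiv (a i) b ?_ h2
      rw [ha, if_neg hi, add_sub_cancel_left]
      exact dvd_mul_right _ _
    have ha0 : a 0 = a₀ := by rw [ha, if_pos rfl]
    have hinj : Function.Injective a := by
      intro i j hij
      by_cases hi : i = 0
      · by_cases hj : j = 0
        · rw [hi, hj]
        · exfalso
          apply hai j hj
          rw [← hij, hi, ha0]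
          exact hqa
      · by_cases hj : j = 0
        · exfalso
          apply hai i hi
          rw [hij, hj, ha0]
          exact hqa
        · rw [ha, ha, if_neg hi, if_neg hj] at hij
          have h2 := mul_left_cancel₀ hq0 (add_left_cancel hij)
          exact Fin.ext (by exact_mod_cast h2)
    obtain ⟨e, M, he0, hM0, hsum, hkey⟩ := exponents hm (by simp) hinj fun i => hH0 (a i)
    obtain ⟨γ, hγ⟩ : ∃ γ : L, γ = ∏ i, (θ - a i) ^ e i := ⟨_, rfl⟩
    have hθa : ∀ i, θ ≠ (a i : L) := by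
      intro i h2
      have h3 : aeval θ (minpoly ℚ θ) = 0 := minpoly.aeval ℚ θ
      have h4 := hH0 (a i)
      rw [hmin, aeval_def, eval₂_map, h2, ← eq_intCast (((algebraMap ℚ L).comp
        (Int.castRingHom ℚ))) (a i), eval₂_at_apply] at h3
      apply h4
      simpa using h3
    have hγ0 : γ ≠ 0 := by
      rw [hγ]
      exact Finset.prod_ne_zero_iff.2 fun i _ => zpow_ne_zero _ (sub_ne_zero.2 (hθa i))
    have hγgen : ℚ⟮γ⟯ = ⊤ := by
      rw [hγ]
      exact gen hgen hm hmin hq a e 0 (he0 0) (ha0 ▸ hqa) (ha0 ▸ hqa') hai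
    have hcrit : mH (fun i => (a i : ℚ)) e ∣ Pool.Agent.H79.AB.hm (minpoly ℚ γ).natDegree
        (minpoly ℚ γ) (mP (fun i => (a i : ℚ)) fun i => (e i).toNat)
        (mP (fun i => (a i : ℚ)) fun i => (-e i).toNat) := by
      have hu : IsUnit (C (M : ℚ)) := isUnit_C.2 (isUnit_iff_ne_zero.2 (by exact_mod_cast hM0))
      rw [hkey, hu.mul_left_dvd, ← hmin]
      refine minpoly.dvd ℚ θ (crit_value (fun i => ?_) ?_)
      · simpa using hθa i
      · have h2 : ∏ i, (θ - algebraMap ℚ L (a i : ℚ)) ^ e i = γ := by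
          rw [hγ]
          simp
        rw [h2]
        exact minpoly.aeval ℚ γ
    have hsqf : Squarefree (mH (fun i => (a i : ℚ)) e) := by
      have hu : IsUnit (C (M : ℚ)) := isUnit_C.2 (isUnit_iff_ne_zero.2 (by exact_mod_cast hM0))
      rw [hkey]
      exact hirr.squarefree.squarefree_of_dvd (hu.mul_left_dvd.2 dvd_rfl)
    refine ⟨γ, hγgen, fun K _ _ => ?_⟩
    obtain ⟨g1, g2, g3, g4⟩ := gen1 γ hγ0 K
    refine ⟨g1, g2, fun h => ?_⟩
    have hcast : (fun i => algebraMap ℚ K (a i : ℚ)) = fun i => (a i : K) := by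
      funext i
      simp
    refine mult (a := fun i => (a i : K)) (fun i j h2 => hinj (Int.cast_injective (α := K) h2)) he0
      (by rw [hsum]; exact hM0) (by rw [Fintype.card_fin]; omega) ?_ g3 g4 ?_ h
    · rw [← hcast, ← mH_map]
      exact (PerfectField.separable_iff_squarefree.2 hsqf).map.squarefree
    · have h2 := Polynomial.map_dvd (algebraMap ℚ K) hcrit
      rw [hm_map, mH_map, mP_map, mP_map] at h2
      simp only [map_intCast] at h2
      rw [natDegree_map]
      exact h2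

end Pool.Agent.H79.AB
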