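import Pool.Agent.H79.AB.Pull

/-!
# Isogenies of degree two and three
-/

set_option autoImplicit false

namespace Pool.Agent.H79.AB

open NumberField IsDedekindDomain Height Polynomial Pool.Agent.N757.RD Pool.Agent.N757.TL
  Pool.Agent.N746.RK

variable {K : Type} [Field K] [NumberField K]

theorem pull' {F G A B H M : K[X]} {n k m g : ℕ} (hn : 1 ≤ n) (hFm : F.natDegree = m)
    (hGg : G.natDegree = g) (hA : A.natDegree ≤ n)
    (hB : B.natDegree ≤ n) (hAB : A.natDegree = n ∨ B.natDegree = n) (hc : IsCoprime A B)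
    (hF : 2 ≤ m) (hG : 2 ≤ g) (hdeg : g ≤ n * (m - 1) + 1)
    (hH : ∀ x : K, B.eval x ≠ 0 → H.eval x = B.eval x ^ m * F.eval (A.eval x / B.eval x))
    (hM : G ^ k = B * H * M) (h : V F) : V G := by
  subst hFm hGg
  exact pull hn hA hB hAB hc hF hG hdeg hH hM h

theorem cop_C {c : K} (hc : c ≠ 0) (A : K[X]) : IsCoprime A (C c) :=
  ⟨0, C c⁻¹, by rw [zero_mul, zero_add, ← C_mul, inv_mul_cancel₀ hc, C_1]⟩

/-! ### degree three -/

noncomputable def P3 (d m c : K) : K[X] := X ^ 3 + C d * (C m * X + C c) ^ 2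
noncomputable def N3 (d m c : K) : K[X] :=
  X ^ 3 + C (4 / 3 * d * m ^ 2) * X ^ 2 + C (4 * d * m * c) * X + C (4 * d * c ^ 2)
noncomputable def T3 (d m c : K) : K[X] := X ^ 3 - C (4 * d * m * c) * X - C (8 * d * c ^ 2)

theorem P3_deg (d m c : K) : (P3 d m c).natDegree = 3 := by
  have e : P3 d m c = X ^ 3 + C (d * m ^ 2) * X ^ 2 + C (2 * d * m * c) * X + C (d * c ^ 2) := by
    unfold P3
    simp only [C_mul, C_pow, map_ofNat]
    ring
  rw [e]
  compute_degree!

theorem N3_deg (d m c : K) : (N3 d m c).natDegree = 3 := by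
  unfold N3
  compute_degree!

theorem T3_deg (d m c : K) : (T3 d m c).natDegree = 3 := by
  unfold T3
  compute_degree!

theorem P3_ne (d m c : K) : P3 d m c ≠ 0 := by
  intro h
  have := P3_deg d m c
  rw [h, natDegree_zero] at this
  omega

theorem N3_ne (d m c : K) : N3 d m c ≠ 0 := by
  intro h
  have := N3_deg d m c
  rw [h, natDegree_zero] at this
  omega

theorem T3_ne (d m c : K) : T3 d m c ≠ 0 := by
  intro h
  have := T3_deg d m c
  rw [h, natDegree_zero] at this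
  omega

theorem N3_cop {d m c : K} (hd : d ≠ 0) (hc : c ≠ 0) : IsCoprime (N3 d m c) (X ^ 2) := by
  refine IsCoprime.pow_right ?_
  have h0 : 4 * d * c ^ 2 ≠ 0 := mul_ne_zero (mul_ne_zero (by norm_num) hd) (pow_ne_zero _ hc)
  refine ⟨C (4 * d * c ^ 2)⁻¹, -C (4 * d * c ^ 2)⁻¹ *
    (X ^ 2 + C (4 / 3 * d * m ^ 2) * X + C (4 * d * m * c)), ?_⟩
  have e : C (4 * d * c ^ 2)⁻¹ * C (4 * d * c ^ 2) = (1 : K[X]) := by
    rw [← C_mul, inv_mul_cancel₀ h0, C_1]
  unfold N3
  linear_combination e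

/-- the first isogeny of degree three -/
theorem three_one {d m c : K} (hd : d ≠ 0) (hc : c ≠ 0)
    (h : V (P3 (-3 * d) m ((27 * c - 4 * d * m ^ 3) / 9))) : V (X * P3 d m c * T3 d m c) := by
  refine pull' (A := N3 d m c) (B := X ^ 2) (H := P3 d m c * T3 d m c ^ 2) (M := P3 d m c)
    (n := 3) (k := 2) (m := 3) (g := 7) (by norm_num) (P3_deg _ _ _) ?_ (N3_deg _ _ _).le
    (by rw [natDegree_X_pow]; norm_num) (Or.inl (N3_deg _ _ _)) (N3_cop hd hc) (by norm_num)
    (by norm_num) (by norm_num) ?_ (by ring) h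
  · rw [natDegree_mul (mul_ne_zero X_ne_zero (P3_ne _ _ _)) (T3_ne _ _ _),
      natDegree_mul X_ne_zero (P3_ne _ _ _), natDegree_X, P3_deg, T3_deg]
  · intro x hx
    have hx0 : x ≠ 0 := by
      rintro rfl
      simp at hx
    simp only [P3, N3, T3, eval_add, eval_mul, eval_pow, eval_sub, eval_X, eval_C]
    field_simp
    ring

/-- the second isogeny of degree three -/
theorem three_two {d m c : K} (hd : d ≠ 0) (hc : c ≠ 0)
    (h : V (X * P3 (-3 * d) m ((27 * c - 4 * d * m ^ 3) / 9))) :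
    V (X * N3 d m c * (P3 d m c * T3 d m c)) := by
  refine pull' (A := N3 d m c) (B := X ^ 2) (H := N3 d m c * P3 d m c * T3 d m c ^ 2)
    (M := N3 d m c * P3 d m c)
    (n := 3) (k := 2) (m := 4) (g := 10) (by norm_num) ?_ ?_ (N3_deg _ _ _).le
    (by rw [natDegree_X_pow]; norm_num) (Or.inl (N3_deg _ _ _)) (N3_cop hd hc) (by norm_num)
    (by norm_num) (by norm_num) ?_ (by ring) h
  · rw [natDegree_mul X_ne_zero (P3_ne _ _ _), natDegree_X, P3_deg]
  · rw [natDegree_mul (mul_ne_zero X_ne_zero (N3_ne _ _ _)) (mul_ne_zero (P3_ne _ _ _)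
      (T3_ne _ _ _)), natDegree_mul X_ne_zero (N3_ne _ _ _),
      natDegree_mul (P3_ne _ _ _) (T3_ne _ _ _), natDegree_X, P3_deg, T3_deg, N3_deg]
  · intro x hx
    have hx0 : x ≠ 0 := by
      rintro rfl
      simp at hx
    simp only [P3, N3, T3, eval_add, eval_mul, eval_pow, eval_sub, eval_X, eval_C]
    field_simp
    ring

/-- the inversion, and the cubic equation without linear terms -/
theorem three_inv {d m c : K} (hd : d ≠ 0) (hc : c ≠ 0) (h : V (X * N3 d m c)) :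
    V ((X - C (-(m / (3 * c)))) ^ 3 - C ((4 * d * m ^ 3 - 27 * c) / (108 * d * c ^ 3))) := by
  have h0 : 4 * d * c ^ 2 ≠ 0 := mul_ne_zero (mul_ne_zero (by norm_num) hd) (pow_ne_zero _ hc)
  obtain ⟨Q, hQ⟩ : ∃ Q : K[X], Q = (X - C (-(m / (3 * c)))) ^ 3 -
    C ((4 * d * m ^ 3 - 27 * c) / (108 * d * c ^ 3)) := ⟨_, rfl⟩
  have hQ' : Q = X ^ 3 + C (m / c) * X ^ 2 + C (m ^ 2 / (3 * c ^ 2)) * X +
      C (1 / (4 * d * c ^ 2)) := by
    have e1 : C (m / c) = 3 * C (m / (3 * c)) := by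
      rw [← C_ofNat, ← C_mul]
      congr 1
      field_simp
    have e2 : C (m ^ 2 / (3 * c ^ 2)) = 3 * C (m / (3 * c)) ^ 2 := by
      rw [← C_ofNat, ← C_pow, ← C_mul]
      congr 1
      field_simp
    have e3 : C (1 / (4 * d * c ^ 2)) = C (m / (3 * c)) ^ 3 -
        C ((4 * d * m ^ 3 - 27 * c) / (108 * d * c ^ 3)) := by
      rw [← C_pow, ← C_sub]
      congr 1
      field_simp
      ring
    rw [hQ, e1, e2, e3, C_neg]
    ring
  have hQd : Q.natDegree = 3 := by
    rw [hQ']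
    compute_degree!
  have hQ0 : Q ≠ 0 := by
    intro h1
    rw [h1, natDegree_zero] at hQd
    omega
  have hG : V (X * (C (4 * d * c ^ 2) * Q)) := by
    refine pull' (A := 1) (B := X) (H := C (4 * d * c ^ 2) * Q) (M := 1)
      (n := 1) (k := 1) (m := 4) (g := 4) (by norm_num) ?_ ?_ (by rw [natDegree_one]; norm_num)
      (by rw [natDegree_X]) (Or.inr natDegree_X) isCoprime_one_left (by norm_num)
      (by norm_num) (by norm_num) ?_ (by ring) h
    · rw [natDegree_mul X_ne_zero (N3_ne _ _ _), natDegree_X, N3_deg]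
    · rw [natDegree_mul X_ne_zero (mul_ne_zero (C_ne_zero.2 h0) hQ0),
        natDegree_mul (C_ne_zero.2 h0) hQ0, natDegree_X, natDegree_C, hQd]
    · intro x hx
      rw [eval_X] at hx
      rw [hQ']
      simp only [N3, eval_add, eval_mul, eval_pow, eval_X, eval_C, eval_one]
      field_simp
      ring
  rw [← hQ]
  refine V_dvd (mul_ne_zero X_ne_zero (mul_ne_zero (C_ne_zero.2 h0) hQ0)) (by omega) ?_ hG
  exact ⟨X * C (4 * d * c ^ 2), by ring⟩

/-- scaling -/
theorem three_scale {m c : K} (h : V (P3 1 m c)) : V (P3 9 m (9 * c)) := by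
  have h9 : (9 : K) ≠ 0 := by norm_num
  refine pull' (A := X) (B := C 9) (H := P3 9 m (9 * c)) (M := C (9 : K)⁻¹)
    (n := 1) (k := 1) (m := 3) (g := 3) (by norm_num) (P3_deg _ _ _) (P3_deg _ _ _)
    (by rw [natDegree_X]) (by rw [natDegree_C]; norm_num) (Or.inl natDegree_X)
    (cop_C h9 _) (by norm_num)
    (by norm_num) (by norm_num) ?_ ?_ h
  · intro x _
    simp only [P3, eval_add, eval_mul, eval_pow, eval_X, eval_C]
    field_simp
  · have e : C (9 : K) * C (9 : K)⁻¹ = 1 := by rw [← C_mul, mul_inv_cancel₀ h9, C_1]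
    rw [pow_one]
    linear_combination -(P3 9 m (9 * c)) * e

theorem three_scale' {m c : K} (h : V (X * P3 1 m c)) : V (X * P3 9 m (9 * c)) := by
  have h9 : (9 : K) ≠ 0 := by norm_num
  refine pull' (A := X) (B := C 9) (H := X * P3 9 m (9 * c)) (M := C (9 : K)⁻¹)
    (n := 1) (k := 1) (m := 4) (g := 4) (by norm_num) ?_ ?_
    (by rw [natDegree_X]) (by rw [natDegree_C]; norm_num) (Or.inl natDegree_X)
    (cop_C h9 _) (by norm_num)
    (by norm_num) (by norm_num) ?_ ?_ h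
  · rw [natDegree_mul X_ne_zero (P3_ne _ _ _), natDegree_X, P3_deg]
  · rw [natDegree_mul X_ne_zero (P3_ne _ _ _), natDegree_X, P3_deg]
  · intro x _
    simp only [P3, eval_add, eval_mul, eval_pow, eval_X, eval_C]
    field_simp
  · have e : C (9 : K) * C (9 : K)⁻¹ = 1 := by rw [← C_mul, mul_inv_cancel₀ h9, C_1]
    rw [pow_one]
    linear_combination -(X * P3 9 m (9 * c)) * e

theorem dvd_deg {P Q : K[X]} (hP : P ≠ 0) (hQ : 2 ≤ Q.natDegree) (h : V P) (hd : Q ∣ P) : V Q :=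
  V_dvd hP hQ hd h

/-- from the cubic to the cube roots of `(4 m ^ 3 - 27 c) / (108 c ^ 3)` -/
theorem three_main {m c : K} (hc : c ≠ 0) (hD : 4 * m ^ 3 - 27 * c ≠ 0) (h : V (P3 1 m c)) :
    RT 3 ((4 * 1 * m ^ 3 - 27 * c) / (108 * 1 * c ^ 3)) ∧
    RT 3 (c / (4 * ((27 * c - 4 * 1 * m ^ 3) / 9) ^ 3)) := by
  obtain ⟨c', hc'⟩ : ∃ c' : K, c' = (27 * c - 4 * 1 * m ^ 3) / 9 := ⟨_, rfl⟩
  have hc'0 : c' ≠ 0 := by
    rw [hc']
    refine div_ne_zero ?_ (by norm_num)
    intro h0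
    apply hD
    linear_combination -h0
  have h3 : (-3 : K) * 1 ≠ 0 := by norm_num
  have h1 := three_scale h
  have e1 : P3 9 m (9 * c) = P3 (-3 * (-3 * 1)) m ((27 * c' - 4 * (-3 * 1) * m ^ 3) / 9) := by
    rw [hc']
    congr 1
    · norm_num
    · field_simp
      ring
  rw [e1] at h1
  have h2 := three_one h3 hc'0 h1
  have h4 : V (X * P3 (-3 * 1) m c') := dvd_deg
    (mul_ne_zero (mul_ne_zero X_ne_zero (P3_ne _ _ _)) (T3_ne _ _ _))
    (by rw [natDegree_mul X_ne_zero (P3_ne _ _ _), natDegree_X, P3_deg]; norm_num) h2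
    (dvd_mul_right _ _)
  constructor
  · rw [hc'] at h4
    have h5 := three_two one_ne_zero hc h4
    have h6 : V (X * N3 1 m c) := dvd_deg
      (mul_ne_zero (mul_ne_zero X_ne_zero (N3_ne _ _ _)) (mul_ne_zero (P3_ne _ _ _) (T3_ne _ _ _)))
      (by rw [natDegree_mul X_ne_zero (N3_ne _ _ _), natDegree_X, N3_deg]; norm_num) h5
      (dvd_mul_right _ _)
    exact (V_root_shift (by norm_num) _ _).1 (three_inv one_ne_zero hc h6)
  · have h5 : V (P3 (-3 * 1) m c') := dvd_deg (mul_ne_zero X_ne_zero (P3_ne _ _ _))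
      (by rw [P3_deg]; norm_num) h4 (dvd_mul_left _ _)
    rw [hc'] at h5
    have h6 := three_one one_ne_zero hc h5
    have h7 : V (X * P3 1 m c) := dvd_deg
      (mul_ne_zero (mul_ne_zero X_ne_zero (P3_ne _ _ _)) (T3_ne _ _ _))
      (by rw [natDegree_mul X_ne_zero (P3_ne _ _ _), natDegree_X, P3_deg]; norm_num) h6
      (dvd_mul_right _ _)
    have h8 := three_scale' h7
    rw [e1] at h8
    have h9 := three_two h3 hc'0 h8
    have h10 : V (X * N3 (-3 * 1) m c') := dvd_deg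
      (mul_ne_zero (mul_ne_zero X_ne_zero (N3_ne _ _ _)) (mul_ne_zero (P3_ne _ _ _) (T3_ne _ _ _)))
      (by rw [natDegree_mul X_ne_zero (N3_ne _ _ _), natDegree_X, N3_deg]; norm_num) h9
      (dvd_mul_right _ _)
    have h11 := (V_root_shift (by norm_num) _ _).1 (three_inv h3 hc'0 h10)
    have e2 : (4 * (-3 * 1) * m ^ 3 - 27 * c') / (108 * (-3 * 1) * c' ^ 3) = c / (4 * c' ^ 3) := by
      have e3 : 4 * (-3 * 1) * m ^ 3 - 27 * c' = -81 * c := by
        rw [hc']
        field_simp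
        ring
      rw [e3]
      field_simp
      ring
    rw [e2] at h11
    rw [← hc']
    exact h11

/-! ### degree two -/

/-- the isogeny of degree two -/
theorem two_one {a b : K} (hb : a ^ 2 - 4 * b ≠ 0)
    (h : V (X * (X ^ 2 + C a * X + C b))) : RT 2 (4 * b) := by
  obtain ⟨A, hA⟩ : ∃ A : K[X], A = X ^ 2 - C (2 * a) * X + C (a ^ 2 - 4 * b) := ⟨_, rfl⟩
  have hAd : A.natDegree = 2 := by rw [hA]; compute_degree!
  have hA0 : A ≠ 0 := by
    intro h1
    rw [h1, natDegree_zero] at hAd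
    omega
  have hBd : (X ^ 2 - C (a ^ 2 - 4 * b) : K[X]).natDegree = 2 := by compute_degree!
  have hB0 : (X ^ 2 - C (a ^ 2 - 4 * b) : K[X]) ≠ 0 := by
    intro h1
    rw [h1, natDegree_zero] at hBd
    omega
  have h4 : (4 : K) ≠ 0 := by norm_num
  have hG : V (X * A * (X ^ 2 - C (a ^ 2 - 4 * b))) := by
    refine pull' (A := A) (B := C 4 * X) (H := A * (X ^ 2 - C (a ^ 2 - 4 * b)) ^ 2)
      (M := C (4 : K)⁻¹ * X * A)
      (n := 2) (k := 2) (m := 3) (g := 5) (by norm_num) ?_ ?_ hAd.le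
      (by rw [natDegree_C_mul_X 4 h4]; norm_num) (Or.inl hAd) ?_ (by norm_num)
      (by norm_num) (by norm_num) ?_ ?_ h
    · have e : (X ^ 2 + C a * X + C b : K[X]).natDegree = 2 := by compute_degree!
      have e0 : (X ^ 2 + C a * X + C b : K[X]) ≠ 0 := by
        intro h1
        rw [h1, natDegree_zero] at e
        omega
      rw [natDegree_mul X_ne_zero e0, natDegree_X, e]
    · rw [natDegree_mul (mul_ne_zero X_ne_zero hA0) hB0, natDegree_mul X_ne_zero hA0,
        natDegree_X, hAd, hBd]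
    · refine (cop_C h4 _).mul_right ?_
      refine ⟨C (a ^ 2 - 4 * b)⁻¹, -C (a ^ 2 - 4 * b)⁻¹ * (X - C (2 * a)), ?_⟩
      have e : C (a ^ 2 - 4 * b)⁻¹ * C (a ^ 2 - 4 * b) = (1 : K[X]) := by
        rw [← C_mul, inv_mul_cancel₀ hb, C_1]
      rw [hA]
      linear_combination e
    · intro x hx
      have hx0 : x ≠ 0 := by
        rintro rfl
        simp at hx
      rw [hA]
      simp only [eval_add, eval_mul, eval_pow, eval_sub, eval_X, eval_C]
      field_simp
      ring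
    · have e : C (4 : K) * C (4 : K)⁻¹ = 1 := by rw [← C_mul, mul_inv_cancel₀ h4, C_1]
      linear_combination -(X * A * (X ^ 2 - C (a ^ 2 - 4 * b))) ^ 2 * e
  have h1 : V A := dvd_deg (mul_ne_zero (mul_ne_zero X_ne_zero hA0) hB0) (by omega) hG
    ⟨X * (X ^ 2 - C (a ^ 2 - 4 * b)), by ring⟩
  have e : A = (X - C a) ^ 2 - C (4 * b) := by
    rw [hA]
    simp only [C_sub, C_mul, C_pow, map_ofNat]
    ring
  rw [e] at h1
  exact (V_root_shift le_rfl _ _).1 h1

theorem two_two {a b : K} (h : V (X * (X ^ 2 + C a * X + C b))) :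
    RT 2 ((a ^ 2 - 4 * b) / 4) := by
  have e : (X ^ 2 + C a * X + C b : K[X]).natDegree = 2 := by compute_degree!
  have e0 : (X ^ 2 + C a * X + C b : K[X]) ≠ 0 := by
    intro h1
    rw [h1, natDegree_zero] at e
    omega
  have h1 : V (X ^ 2 + C a * X + C b) := dvd_deg (mul_ne_zero X_ne_zero e0) (by omega) h
    (dvd_mul_left _ _)
  have e2 : (X ^ 2 + C a * X + C b : K[X]) = (X - C (-(a / 2))) ^ 2 - C ((a ^ 2 - 4 * b) / 4) := by
    have e3 : C a = 2 * C (a / 2) := by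
      rw [← C_ofNat, ← C_mul]
      congr 1
      field_simp
    have e4 : C b = C (a / 2) ^ 2 - C ((a ^ 2 - 4 * b) / 4) := by
      rw [← C_pow, ← C_sub]
      congr 1
      field_simp
      ring
    rw [e3, e4, C_neg]
    ring
  rw [e2] at h1
  exact (V_root_shift le_rfl _ _).1 h1

end Pool.Agent.H79.AB
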