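import Pool.Agent.H79.AB.Fam

/-!
# The isogeny of degree five
-/

set_option autoImplicit false

namespace Pool.Agent.H79.AB

open NumberField IsDedekindDomain Height Polynomial Pool.Agent.N757.RD Pool.Agent.N757.TL
  Pool.Agent.N746.RK

variable {K : Type} [Field K] [NumberField K]

/-- the cubic with an isogeny of degree five, whose kernel has the abscissas `±√(r ^ 2 + 1)` -/
noncomputable def P5 (r : K) : K[X] :=
  X ^ 3 + C (r ^ 2 + 1) * X ^ 2 + C ((2 * r - 1) * (r ^ 2 + 1)) * X + C ((r ^ 2 + 1) ^ 2)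

noncomputable def S5 (r : K) : K[X] :=
  (X ^ 2 - C (r ^ 2 + 1)) ^ 3 -
    (C (8 * (r ^ 2 + 1) * (r + 1)) * X ^ 2 + C (16 * (r ^ 2 + 1) ^ 2) * X +
      C (8 * (r ^ 2 + 1) ^ 2 * (r + 1))) * (X ^ 2 - C (r ^ 2 + 1)) -
    C (16 * (r ^ 2 + 1) ^ 2) * (2 * X ^ 3 + C (6 * r) * X ^ 2 + C (6 * (r ^ 2 + 1)) * X +
      C (2 * r * (r ^ 2 + 1)))

noncomputable def N5 (r : K) : K[X] :=
  (X + C (2 * (r ^ 2 + 1))) * (X ^ 2 - C (r ^ 2 + 1)) ^ 2 +
    (C (8 * (r ^ 2 + 1) * (r + 1)) * X + C (8 * (r ^ 2 + 1) ^ 2)) * (X ^ 2 - C (r ^ 2 + 1)) +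
    C (16 * (r ^ 2 + 1) ^ 2) * (X ^ 2 + C (2 * r) * X + C (r ^ 2 + 1))

theorem P5_deg (r : K) : (P5 r).natDegree = 3 := by
  unfold P5
  compute_degree!

theorem S5_deg (r : K) : (S5 r).natDegree = 6 := by
  unfold S5
  compute_degree!

theorem N5_deg (r : K) : (N5 r).natDegree = 5 := by
  unfold N5
  compute_degree!

theorem ne_of_deg {P : K[X]} {n : ℕ} (h : P.natDegree = n) (hn : 1 ≤ n) : P ≠ 0 := by
  rintro rfl
  rw [natDegree_zero] at h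
  omega

theorem N5_cop {r : K} (hk : r ^ 2 + 1 ≠ 0) : IsCoprime (N5 r) ((X ^ 2 - C (r ^ 2 + 1)) ^ 2) := by
  refine IsCoprime.pow_right ?_
  obtain ⟨κ, hκ⟩ : ∃ κ : K, κ = r ^ 2 + 1 := ⟨_, rfl⟩
  obtain ⟨h, hh⟩ : ∃ h : K[X], h = X ^ 2 - C κ := ⟨_, rfl⟩
  have e1 : N5 r = C (16 * κ ^ 2) * (C (2 * r) * X + C (2 * κ)) + h *
      ((X + C (2 * κ)) * h + C (8 * κ * (r + 1)) * X + C (8 * κ ^ 2) + C (16 * κ ^ 2)) := by
    unfold N5
    rw [← hκ, ← hh]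
    have e2 : (X : K[X]) ^ 2 = h + C κ := by rw [hh]; ring
    simp only [C_mul, C_pow, C_add, map_ofNat, C_1] at e2 ⊢
    linear_combination 16 * C κ ^ 2 * e2
  rw [← hκ, ← hh, e1]
  have h0 : 4 * κ * (16 * κ ^ 2) ≠ 0 := by
    rw [← hκ] at hk
    have : (4 : K) ≠ 0 := by norm_num
    have : (16 : K) ≠ 0 := by norm_num
    positivity
  have h1 : IsCoprime (C (16 * κ ^ 2) * (C (2 * r) * X + C (2 * κ))) h := by
    refine ⟨C (4 * κ * (16 * κ ^ 2))⁻¹ * (C (2 * κ) - C (2 * r) * X),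
      C (4 * κ * (16 * κ ^ 2))⁻¹ * C (16 * κ ^ 2) * C (4 * r ^ 2), ?_⟩
    have e : C (4 * κ * (16 * κ ^ 2))⁻¹ * C (4 * κ * (16 * κ ^ 2)) = (1 : K[X]) := by
      rw [← C_mul, inv_mul_cancel₀ h0, C_1]
    have e3 : C κ = C (r : K) ^ 2 + 1 := by rw [hκ, C_add, C_pow, C_1]
    rw [hh]
    simp only [C_mul, C_pow, map_ofNat] at e ⊢
    linear_combination e + C (4 * κ * (16 * κ ^ 2))⁻¹ * 16 * C κ ^ 2 * 4 * C κ * e3
  exact h1.add_mul_left_left _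

theorem five {r : K} (hk : r ^ 2 + 1 ≠ 0) (h11 : 2 * r - 11 ≠ 0)
    (h : V (P5 ((11 * r + 2) / (2 * r - 11)))) : RT 2 (r ^ 2 + 1) := by
  obtain ⟨l, hl⟩ : ∃ l : K, l = -25 / (2 * r - 11) ^ 2 := ⟨_, rfl⟩
  have hl0 : l ≠ 0 := by
    rw [hl]
    exact div_ne_zero (by norm_num) (pow_ne_zero _ h11)
  have hhd : (X ^ 2 - C (r ^ 2 + 1) : K[X]).natDegree = 2 := by compute_degree!
  have hh2 : ((X ^ 2 - C (r ^ 2 + 1) : K[X]) ^ 2).natDegree = 4 := by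
    rw [natDegree_pow, hhd]
  have hAd : (C l * N5 r).natDegree = 5 := by
    rw [natDegree_C_mul hl0, N5_deg]
  have hG : V ((X ^ 2 - C (r ^ 2 + 1)) * (P5 r * S5 r)) := by
    refine pull' (A := C l * N5 r) (B := (X ^ 2 - C (r ^ 2 + 1)) ^ 2)
      (H := C (l ^ 3) * (P5 r * S5 r ^ 2)) (M := C (l ^ 3)⁻¹ * P5 r)
      (n := 5) (k := 2) (m := 3) (g := 11) (by norm_num) (P5_deg _) ?_ hAd.le
      (by rw [hh2]; norm_num) (Or.inl hAd) ?_ (by norm_num)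
      (by norm_num) (by norm_num) ?_ ?_ h
    · rw [natDegree_mul (ne_of_deg hhd (by norm_num)) (mul_ne_zero
        (ne_of_deg (P5_deg _) (by norm_num)) (ne_of_deg (S5_deg _) (by norm_num))),
        natDegree_mul (ne_of_deg (P5_deg _) (by norm_num)) (ne_of_deg (S5_deg _) (by norm_num)),
        hhd, P5_deg, S5_deg]
    · exact (cop_C hl0 _).symm.mul_left (N5_cop hk)
    · intro x hx
      have hx0 : x ^ 2 - (r ^ 2 + 1) ≠ 0 := by
        intro h0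
        apply hx
        simp only [eval_pow, eval_sub, eval_X, eval_C]
        rw [h0]
        norm_num
      rw [hl]
      simp only [P5, N5, S5, eval_add, eval_mul, eval_pow, eval_sub, eval_X, eval_C, eval_ofNat]
      field_simp
      ring
    · have e : C (l ^ 3) * C (l ^ 3)⁻¹ = 1 := by
        rw [← C_mul, mul_inv_cancel₀ (pow_ne_zero _ hl0), C_1]
      linear_combination -((X ^ 2 - C (r ^ 2 + 1)) * (P5 r * S5 r)) ^ 2 * e
  have h1 : V (X ^ 2 - C (r ^ 2 + 1)) := dvd_deg (mul_ne_zero (ne_of_deg hhd (by norm_num))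
    (mul_ne_zero (ne_of_deg (P5_deg _) (by norm_num)) (ne_of_deg (S5_deg _) (by norm_num))))
    (by omega) hG (dvd_mul_right _ _)
  exact (V_root _).1 h1

end Pool.Agent.H79.AB
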