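import Pool.Agent.H79.AB.Mult
import Mathlib.NumberTheory.Padics.Complex

/-!
# Generators of number fields of the form `∏ (θ - a i) ^ (e i)`
-/

set_option autoImplicit false

namespace Pool.Agent.H79.AB

open Polynomial

/-- a polynomial without integral zeros has values divisible by new primes -/
theorem exists_prime {H : ℤ[X]} (hH : 1 ≤ H.natDegree) (h0 : H.eval 0 ≠ 0) {N : ℤ} (hN : N ≠ 0) :
    ∃ (q : ℕ) (a : ℤ), q.Prime ∧ ¬ (q : ℤ) ∣ N ∧ (q : ℤ) ∣ H.eval a := by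
  obtain ⟨c, hc⟩ : ∃ c, c = H.eval 0 := ⟨_, rfl⟩
  rw [← hc] at h0
  have hH0 : ∀ d : ℤ, H - C d ≠ 0 := fun d h => by
    rw [sub_eq_zero] at h
    rw [h, natDegree_C] at hH
    omega
  have hfin : {x : ℤ | ((H - C c) * (H - C (-c))).eval x = 0}.Finite := by
    have := ((H - C c) * (H - C (-c))).roots.toFinset.finite_toSet
    refine this.subset fun x hx => ?_
    rw [Finset.mem_coe, Multiset.mem_toFinset, mem_roots (mul_ne_zero (hH0 _) (hH0 _))]
    exact hx
  have hinj : Function.Injective fun t : ℤ => c * N * t := fun s t h =>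
    mul_left_cancel₀ (mul_ne_zero h0 hN) h
  obtain ⟨t, ht⟩ : ∃ t : ℤ, c * N * t ∉ {x : ℤ | ((H - C c) * (H - C (-c))).eval x = 0} := by
    by_contra hcon
    push Not at hcon
    exact (Set.infinite_range_of_injective hinj) (hfin.subset (by rintro _ ⟨t, rfl⟩; exact hcon t))
  obtain ⟨s, hs⟩ : (c * N * t - 0) ∣ H.eval (c * N * t) - H.eval 0 := sub_dvd_eval_sub _ _ _
  rw [sub_zero, ← hc] at hs
  have h1 : H.eval (c * N * t) = c * (1 + N * (t * s)) := by linear_combination hs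
  have h2 : (1 + N * (t * s)).natAbs ≠ 1 := by
    intro h3
    apply ht
    change ((H - C c) * (H - C (-c))).eval _ = 0
    rw [eval_mul, eval_sub, eval_sub, eval_C, eval_C, h1]
    rcases Int.natAbs_eq_iff.1 h3 with h4 | h4
    · rw [h4]; simp
    · rw [h4]; simp
  obtain ⟨q, hq, hqd⟩ := Nat.exists_prime_and_dvd h2
  have hqd' : (q : ℤ) ∣ 1 + N * (t * s) := Int.natCast_dvd.2 hqd
  refine ⟨q, c * N * t, hq, fun h5 => ?_, ?_⟩
  · have h6 : (q : ℤ) ∣ 1 := by
      have := hqd'.sub (h5.mul_right (t * s))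
      rwa [add_sub_cancel_right] at this
    exact hq.one_lt.ne' (by exact_mod_cast Int.eq_one_of_dvd_one (by positivity) h6)
  · rw [h1]
    exact hqd'.mul_left _

theorem int_clear (u : ℚ[X]) : ∃ (b : ℤ) (U : ℤ[X]), b ≠ 0 ∧
    U.map (Int.castRingHom ℚ) = C (b : ℚ) * u := by
  obtain ⟨b, hb, h⟩ := IsLocalization.integerNormalization_spec (nonZeroDivisors ℤ) u
  refine ⟨b, IsLocalization.integerNormalization (nonZeroDivisors ℤ) u,
    nonZeroDivisors.ne_zero hb, ?_⟩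
  rw [← algebraMap_int_eq, h, ← Int.cast_smul_eq_zsmul ℚ, Polynomial.smul_eq_C_mul]

theorem bezout_int {H : ℤ[X]} (hs : (H.map (Int.castRingHom ℚ)).Separable) :
    ∃ (D : ℤ) (U V : ℤ[X]), D ≠ 0 ∧ U * H + V * derivative H = C D := by
  obtain ⟨u, v, huv⟩ := hs
  obtain ⟨b, U, hb, hU⟩ := int_clear u
  obtain ⟨c, V, hc, hV⟩ := int_clear v
  refine ⟨b * c, C c * U, C b * V, mul_ne_zero hb hc, ?_⟩
  apply Polynomial.map_injective (Int.castRingHom ℚ) Int.cast_injective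
  simp only [Polynomial.map_add, Polynomial.map_mul, Polynomial.map_C, hU, hV]
  rw [← derivative_map]
  simp only [eq_intCast, Int.cast_mul, C_mul]
  linear_combination C (b : ℚ) * C (c : ℚ) * huv

theorem exists_q {H : ℤ[X]} (hm : H.Monic) (hs : (H.map (Int.castRingHom ℚ)).Separable)
    (hH : 1 ≤ H.natDegree) (h0 : H.eval 0 ≠ 0) :
    ∃ (q : ℕ) (a b : ℤ), q.Prime ∧ (q : ℤ) ∣ H.eval a ∧ ¬ (q : ℤ) ∣ (derivative H).eval a ∧
      ¬ (q : ℤ) ∣ H.eval b := by
  obtain ⟨D, U, V, hD, hUV⟩ := bezout_int hs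
  obtain ⟨q, a, hq, hqN, hqa⟩ := exists_prime hH h0 (N := D * (H.natDegree.factorial : ℤ))
    (mul_ne_zero hD (by exact_mod_cast Nat.factorial_ne_zero _))
  have hqr : H.natDegree < q := by
    by_contra h
    apply hqN
    refine Dvd.dvd.mul_left ?_ _
    exact_mod_cast (hq.dvd_factorial).2 (not_lt.1 h)
  have : Fact q.Prime := ⟨hq⟩
  obtain ⟨b, hb⟩ : ∃ b : ℤ, ¬ (q : ℤ) ∣ H.eval b := by
    by_contra hcon
    push Not at hcon
    have hz : H.map (Int.castRingHom (ZMod q)) = 0 := by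
      refine eq_zero_of_natDegree_lt_card_of_eval_eq_zero _ (f := fun x : ZMod q => x)
        (fun _ _ h => h) (fun x => ?_) ?_
      · obtain ⟨y, rfl⟩ := ZMod.intCast_surjective x
        have := hcon y
        rw [← ZMod.intCast_zmod_eq_zero_iff_dvd] at this
        rw [← this, eval_map, ← eq_intCast (Int.castRingHom (ZMod q)) y, eval₂_at_apply]
        rfl
      · rw [ZMod.card]
        exact lt_of_le_of_lt natDegree_map_le hqr
    exact (hm.map (Int.castRingHom (ZMod q))).ne_zero hz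
  refine ⟨q, a, b, hq, hqa, fun h => ?_, hb⟩
  apply hqN
  refine Dvd.dvd.mul_right ?_ _
  have h1 := congrArg (eval a) hUV
  rw [eval_add, eval_mul, eval_mul, eval_C] at h1
  rw [← h1]
  exact (hqa.mul_left _).add (h.mul_left _)

section padic

variable {q : ℕ} [Fact q.Prime]

theorem norm_int_lt (n : ℤ) : ‖((n : ℤ) : PadicAlgCl q)‖ < 1 ↔ (q : ℤ) ∣ n := by
  rw [← Padic.norm_intCast_lt_one_iff (p := q), ← PadicAlgCl.norm_extends q ((n : ℤ) : ℚ_[q])]
  simp

theorem norm_int_le (n : ℤ) : ‖((n : ℤ) : PadicAlgCl q)‖ ≤ 1 := by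
  have := Padic.norm_int_le_one (p := q) n
  rw [← PadicAlgCl.norm_extends q ((n : ℤ) : ℚ_[q])] at this
  simpa using this

/-- evaluation of an integral polynomial -/
noncomputable def ev (H : ℤ[X]) (x : PadicAlgCl q) : PadicAlgCl q :=
  H.eval₂ (Int.castRingHom _) x

theorem ev_int (H : ℤ[X]) (n : ℤ) : ev H (n : PadicAlgCl q) = ((H.eval n : ℤ) : PadicAlgCl q) := by
  unfold ev
  rw [← eq_intCast (Int.castRingHom (PadicAlgCl q)) n, eval₂_at_apply]
  rfl

theorem ev_sub (H : ℤ[X]) {x y : PadicAlgCl q} (hx : ‖x‖ ≤ 1) (hy : ‖y‖ ≤ 1) :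
    ‖ev H x - ev H y‖ ≤ ‖x - y‖ := by
  obtain ⟨S, hS⟩ : ∃ S : Subring (PadicAlgCl q), ∀ z, z ∈ S ↔ ‖z‖ ≤ 1 := by
    refine ⟨(Valued.v : Valuation (PadicAlgCl q) NNReal).integer, fun z => ?_⟩
    rw [Valuation.mem_integer_iff, PadicAlgCl.valuation_def]
    rfl
  obtain ⟨c, hc⟩ : ((⟨x, (hS x).2 hx⟩ : S) - ⟨y, (hS y).2 hy⟩) ∣
      (H.map (Int.castRingHom S)).eval ⟨x, (hS x).2 hx⟩ -
        (H.map (Int.castRingHom S)).eval ⟨y, (hS y).2 hy⟩ := sub_dvd_eval_sub _ _ _
  have e : ∀ z : S, S.subtype ((H.map (Int.castRingHom S)).eval z) = ev H (z : PadicAlgCl q) := by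
    intro z
    rw [eval_map, hom_eval₂]
    unfold ev
    congr 1
  have h := congrArg S.subtype hc
  rw [map_sub, e, e, map_mul, map_sub] at h
  change ev H x - ev H y = (x - y) * c at h
  rw [h, norm_mul]
  exact mul_le_of_le_one_right (norm_nonneg _) ((hS _).1 c.2)

theorem root_le {H : ℤ[X]} (hm : H.Monic) {z : PadicAlgCl q} (hz : ev H z = 0) : ‖z‖ ≤ 1 := by
  have hi : IsIntegral ℤ z := ⟨H, hm, by rw [← hz]; rfl⟩
  have h1 : IsIntegral (Valued.v : Valuation (PadicAlgCl q) NNReal).integer z := hi.tower_top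
  have h2 := (Valuation.integer.integers
    (Valued.v : Valuation (PadicAlgCl q) NNReal)).mem_of_integral h1
  rw [Valuation.mem_integer_iff, PadicAlgCl.valuation_def] at h2
  exact_mod_cast h2

theorem sub_le {x y : PadicAlgCl q} {c : ℝ} (hx : ‖x‖ ≤ c) (hy : ‖y‖ ≤ c) : ‖x - y‖ ≤ c := by
  have := PadicAlgCl.isNonarchimedean q x (-y)
  rw [← sub_eq_add_neg, norm_neg] at this
  exact this.trans (max_le hx hy)

theorem sub_lt {x y : PadicAlgCl q} {c : ℝ} (hx : ‖x‖ < c) (hy : ‖y‖ < c) : ‖x - y‖ < c := by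
  have := PadicAlgCl.isNonarchimedean q x (-y)
  rw [← sub_eq_add_neg, norm_neg] at this
  exact this.trans_lt (max_lt hx hy)

theorem exists_root {H : ℤ[X]} (hm : H.Monic) {a : ℤ} (ha : (q : ℤ) ∣ H.eval a) :
    ∃ z : PadicAlgCl q, ev H z = 0 ∧ ‖z - a‖ < 1 := by
  have hmm : (H.map (Int.castRingHom (PadicAlgCl q))).Monic := hm.map _
  have hs : (H.map (Int.castRingHom (PadicAlgCl q))).Splits := IsAlgClosed.splits _
  have h1 := hs.eval_eq_prod_roots_of_monic hmm (a : PadicAlgCl q)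
  by_contra hcon
  push Not at hcon
  have h2 : 1 ≤ ‖((H.map (Int.castRingHom (PadicAlgCl q))).roots.map
      ((a : PadicAlgCl q) - ·)).prod‖ := by
    refine Multiset.prod_induction (fun y => 1 ≤ ‖y‖) _ (fun x y hx hy => ?_) ?_ fun y hy => ?_
    · rw [norm_mul]
      exact one_le_mul_of_one_le_of_one_le hx hy
    · rw [norm_one]
    · obtain ⟨z, hz, rfl⟩ := Multiset.mem_map.1 hy
      rw [norm_sub_rev]
      refine hcon z ?_
      have := (mem_roots hmm.ne_zero).1 hz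
      rw [IsRoot.def, eval_map] at this
      exact this
  rw [← h1, eval_map] at h2
  have h3 := ev_int (q := q) H a
  unfold ev at h3
  rw [h3] at h2
  exact absurd ((norm_int_lt _).2 ha) (not_lt.2 h2)

theorem root_unique {H : ℤ[X]} (hm : H.Monic) {a : ℤ} (ha : ¬ (q : ℤ) ∣ (derivative H).eval a)
    {x y : PadicAlgCl q} (hx : ev H x = 0) (hy : ev H y = 0) (hxa : ‖x - a‖ < 1)
    (hya : ‖y - a‖ < 1) : x = y := by
  classical
  by_contra hxy
  apply ha
  rw [← norm_int_lt, ← ev_int]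
  have hmm : (H.map (Int.castRingHom (PadicAlgCl q))).Monic := hm.map _
  have hs : (H.map (Int.castRingHom (PadicAlgCl q))).Splits := IsAlgClosed.splits _
  have hxr : x ∈ (H.map (Int.castRingHom (PadicAlgCl q))).roots := by
    rw [mem_roots hmm.ne_zero, IsRoot.def, eval_map]
    exact hx
  have hyr : y ∈ (H.map (Int.castRingHom (PadicAlgCl q))).roots := by
    rw [mem_roots hmm.ne_zero, IsRoot.def, eval_map]
    exact hy
  have h1 := hs.eval_root_derivative hmm hxr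
  have hye : y ∈ (H.map (Int.castRingHom (PadicAlgCl q))).roots.erase x :=
    (Multiset.mem_erase_of_ne (Ne.symm hxy)).2 hyr
  rw [← Multiset.cons_erase hye, Multiset.map_cons, Multiset.prod_cons] at h1
  have h2 : ‖((((H.map (Int.castRingHom (PadicAlgCl q))).roots.erase x).erase y).map
      (x - ·)).prod‖ ≤ 1 := by
    refine Multiset.prod_induction (fun y => ‖y‖ ≤ 1) _ (fun x y hx hy => ?_) ?_ fun t ht => ?_
    · rw [norm_mul]
      exact mul_le_one₀ hx (norm_nonneg _) hy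
    · rw [norm_one]
    · obtain ⟨z, hz, rfl⟩ := Multiset.mem_map.1 ht
      have h3 := Multiset.mem_of_mem_erase (Multiset.mem_of_mem_erase hz)
      have h4 := (mem_roots hmm.ne_zero).1 h3
      rw [IsRoot.def, eval_map] at h4
      exact sub_le (root_le hm hx) (root_le hm h4)
  have h3 : ‖ev (derivative H) x‖ < 1 := by
    have e : ev (derivative H) x = eval x (derivative (H.map (Int.castRingHom (PadicAlgCl q)))) := by
      unfold ev
      rw [derivative_map, eval_map]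
    rw [e, h1, norm_mul]
    have h4 : ‖x - y‖ < 1 := by
      have := sub_lt hxa hya
      rwa [sub_sub_sub_cancel_right] at this
    calc _ ≤ ‖x - y‖ * 1 := mul_le_mul_of_nonneg_left h2 (norm_nonneg _)
      _ < 1 := by rwa [mul_one]
  have h4 := ev_sub (derivative H) (root_le hm hx) (norm_int_le (q := q) a)
  have h5 := sub_lt h3 (h4.trans_lt hxa)
  rwa [sub_sub_cancel] at h5

theorem root_unit {H : ℤ[X]} (hm : H.Monic) {a : ℤ} (ha : ¬ (q : ℤ) ∣ H.eval a)
    {x : PadicAlgCl q} (hx : ev H x = 0) : ‖x - a‖ = 1 := by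
  refine le_antisymm (sub_le (root_le hm hx) (norm_int_le a)) (not_lt.1 fun h => ha ?_)
  rw [← norm_int_lt, ← ev_int]
  have h4 := ev_sub H (root_le hm hx) (norm_int_le (q := q) a)
  rw [hx, zero_sub, norm_neg] at h4
  exact h4.trans_lt h

end padic

open scoped IntermediateField

/-- **The generators.** -/
theorem gen {L : Type} [Field L] [NumberField L] {θ : L} (hgen : ℚ⟮θ⟯ = ⊤) {H : ℤ[X]}
    (hm : H.Monic) (hHθ : minpoly ℚ θ = H.map (Int.castRingHom ℚ)) {q : ℕ} (hq : q.Prime)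
    {ι : Type} [Fintype ι] (a e : ι → ℤ) (i₀ : ι) (he : e i₀ ≠ 0) (h0 : (q : ℤ) ∣ H.eval (a i₀))
    (h1 : ¬ (q : ℤ) ∣ (derivative H).eval (a i₀)) (h2 : ∀ i, i ≠ i₀ → ¬ (q : ℤ) ∣ H.eval (a i)) :
    ℚ⟮∏ i, (θ - a i) ^ e i⟯ = ⊤ := by
  classical
  have : Fact q.Prime := ⟨hq⟩
  have hspl : ∀ x : L, ((minpoly ℚ x).map (algebraMap ℚ (PadicAlgCl q))).Splits := fun x =>
    IsAlgClosed.splits _
  have hev : ∀ z : PadicAlgCl q, aeval z (minpoly ℚ θ) = ev H z := by
    intro z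
    rw [hHθ, aeval_def, eval₂_map]
    unfold ev
    congr 1
  have hroot : ∀ ψ : L →ₐ[ℚ] PadicAlgCl q, ev H (ψ θ) = 0 := by
    intro ψ
    rw [← hev, aeval_algHom_apply, minpoly.aeval, map_zero]
  obtain ⟨z, hz, hza⟩ := exists_root (q := q) hm h0
  obtain ⟨φ, hφ⟩ : ∃ φ : L →ₐ[ℚ] PadicAlgCl q, φ θ = z := by
    have h3 := Algebra.IsAlgebraic.range_eval_eq_rootSet_minpoly (F := ℚ) (K := L)
      (PadicAlgCl q) θ
    have h4 : z ∈ (minpoly ℚ θ).rootSet (PadicAlgCl q) := by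
      rw [mem_rootSet]
      exact ⟨minpoly.ne_zero_of_finite ℚ θ, by rw [hev, hz]⟩
    rw [← h3] at h4
    exact h4
  rw [Field.primitive_element_iff_algHom_eq_of_eval ℚ (PadicAlgCl q) hspl _ φ]
  intro ψ hψ
  apply (Field.primitive_element_iff_algHom_eq_of_eval ℚ (PadicAlgCl q) hspl θ φ).1 hgen
  have hprod : ∀ χ : L →ₐ[ℚ] PadicAlgCl q, ‖χ (∏ i, (θ - a i) ^ e i)‖ = ‖χ θ - a i₀‖ ^ e i₀ := by
    intro χ
    rw [map_prod, norm_prod, Finset.prod_eq_single i₀]
    · rw [map_zpow₀, norm_zpow, map_sub, map_intCast]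
    · intro i _ hi
      rw [map_zpow₀, norm_zpow, map_sub, map_intCast, root_unit hm (h2 i hi) (hroot χ), one_zpow]
    · intro h
      exact absurd (Finset.mem_univ _) h
  by_contra hne
  have h5 : ‖ψ θ - a i₀‖ = 1 := by
    refine le_antisymm (sub_le (root_le hm (hroot ψ)) (norm_int_le _)) (not_lt.1 fun h => hne ?_)
    exact root_unique hm h1 (hroot φ) (hroot ψ) (by rw [hφ]; exact hza) h
  have h6 := congrArg norm hψ
  rw [hprod, hprod, h5, one_zpow, hφ] at h6
  rcases eq_or_ne ‖z - a i₀‖ 0 with h7 | h7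
  · rw [h7, zero_zpow _ he] at h6
    exact zero_ne_one h6
  · exact he ((zpow_eq_one_iff_right₀ (norm_nonneg _) hza.ne).1 h6)

end Pool.Agent.H79.AB
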