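import Mathlib

/-!
# Heights of the values of a rational function
-/

set_option autoImplicit false

namespace Pool.Agent.H79.AB

open NumberField Height Polynomial

variable {K : Type} [Field K]

/-- homogenisation -/
noncomputable def hom (m : ℕ) (P : K[X]) : MvPolynomial (Fin 2) K :=
  ∑ i ∈ Finset.range (m + 1), MvPolynomial.C (P.coeff i) *
    (MvPolynomial.X 0 ^ i * MvPolynomial.X 1 ^ (m - i))

theorem hom_homogeneous (m : ℕ) (P : K[X]) : (hom m P).IsHomogeneous m := by
  refine MvPolynomial.IsHomogeneous.sum _ _ _ fun i hi => ?_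
  have h1 : i ≤ m := Nat.lt_succ_iff.1 (Finset.mem_range.1 hi)
  have h2 : (MvPolynomial.X (R := K) (0 : Fin 2) ^ i *
      MvPolynomial.X (R := K) (1 : Fin 2) ^ (m - i)).IsHomogeneous (i + (m - i)) := by
    refine MvPolynomial.IsHomogeneous.mul ?_ ?_
    · have := (MvPolynomial.isHomogeneous_X K (0 : Fin 2)).pow i
      rwa [one_mul] at this
    · have := (MvPolynomial.isHomogeneous_X K (1 : Fin 2)).pow (m - i)
      rwa [one_mul] at this
  have h3 := (MvPolynomial.isHomogeneous_C (Fin 2) (P.coeff i)).mul h2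
  rwa [show 0 + (i + (m - i)) = m by omega] at h3

theorem hom_eval {m : ℕ} {P : K[X]} (hm : P.natDegree ≤ m) (x : K) :
    (hom m P).eval ![x, 1] = P.eval x := by
  unfold hom
  rw [map_sum, eval_eq_sum_range' (Nat.lt_succ_of_le hm)]
  refine Finset.sum_congr rfl fun i _ => ?_
  simp

/-- two Bezout identities with polynomials of bounded degree -/
theorem bez {A B : K[X]} {n : ℕ} (hn : 1 ≤ n) (hA : A.natDegree = n) (hB : B.natDegree ≤ n)
    (hc : IsCoprime A B) : ∃ (M : ℕ) (U V U' V' : K[X]), U.natDegree ≤ M ∧ V.natDegree ≤ M ∧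
      U'.natDegree ≤ M ∧ V'.natDegree ≤ M ∧ U * A + V * B = 1 ∧ U' * A + V' * B = X ^ (M + n) := by
  obtain ⟨U, V, hUV⟩ := hc
  have hA0 : A ≠ 0 := by
    rintro rfl
    rw [natDegree_zero] at hA
    omega
  obtain ⟨M, hM⟩ : ∃ M : ℕ, M = max n (max U.natDegree V.natDegree) := ⟨_, rfl⟩
  have hMn : n ≤ M := by rw [hM]; exact le_max_left _ _
  have hMU : U.natDegree ≤ M := by rw [hM]; exact (le_max_left _ _).trans (le_max_right _ _)
  have hMV : V.natDegree ≤ M := by rw [hM]; exact (le_max_right _ _).trans (le_max_right _ _)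
  obtain ⟨Q, hQ⟩ : ∃ Q : K[X], Q = X ^ (M + n) / A := ⟨_, rfl⟩
  obtain ⟨R, hR⟩ : ∃ R : K[X], R = X ^ (M + n) % A := ⟨_, rfl⟩
  have hdiv : A * Q + R = X ^ (M + n) := by
    rw [hQ, hR]
    exact EuclideanDomain.div_add_mod _ _
  have hRd : R.natDegree < n := by
    rw [hR, ← hA]
    exact natDegree_mod_lt _ (by omega)
  have hQd : Q.natDegree ≤ M := by
    rcases eq_or_ne Q 0 with h0 | h0
    · rw [h0, natDegree_zero]
      exact Nat.zero_le _
    · have h1 : (A * Q).natDegree = A.natDegree + Q.natDegree := natDegree_mul hA0 h0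
      have h2 : A * Q = X ^ (M + n) - R := by rw [← hdiv]; ring
      have h3 : (X ^ (M + n) - R).natDegree ≤ M + n := by
        refine (natDegree_sub_le _ _).trans (max_le ?_ (by omega))
        exact natDegree_X_pow_le _
      rw [← h2, h1] at h3
      omega
  obtain ⟨S, hS⟩ : ∃ S : K[X], S = (R * V) / A := ⟨_, rfl⟩
  obtain ⟨W, hW⟩ : ∃ W : K[X], W = (R * V) % A := ⟨_, rfl⟩
  have hdiv2 : A * S + W = R * V := by
    rw [hS, hW]
    exact EuclideanDomain.div_add_mod _ _
  have hWd : W.natDegree < n := by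
    rw [hW, ← hA]
    exact natDegree_mod_lt _ (by omega)
  obtain ⟨Z, hZ⟩ : ∃ Z : K[X], Z = R * U + B * S := ⟨_, rfl⟩
  have hZA : Z * A = R - W * B := by
    have h1 : R = R * (U * A + V * B) := by rw [hUV, mul_one]
    have h2 : R * (U * A + V * B) = R * U * A + (R * V) * B := by ring
    rw [hZ]
    conv_rhs => rw [h1, h2, ← hdiv2]
    ring
  have hZd : Z.natDegree ≤ M := by
    rcases eq_or_ne Z 0 with h0 | h0
    · rw [h0, natDegree_zero]
      exact Nat.zero_le _
    · have h1 : (Z * A).natDegree = Z.natDegree + A.natDegree := natDegree_mul h0 hA0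
      have h3 : (R - W * B).natDegree ≤ M + n := by
        refine (natDegree_sub_le _ _).trans (max_le (by omega) ?_)
        refine natDegree_mul_le.trans ?_
        omega
      rw [← hZA, h1] at h3
      omega
  refine ⟨M, U, V, Q + Z, W, hMU, hMV, (natDegree_add_le _ _).trans (max_le hQd hZd), by omega,
    hUV, ?_⟩
  have h1 : (Q + Z) * A + W * B = A * Q + (Z * A + W * B) := by ring
  rw [h1, hZA, sub_add_cancel, hdiv]

variable [NumberField K]

/-- the height of the values of a rational function, degree of the numerator -/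
theorem ratio_ge_aux {A B : K[X]} {n : ℕ} (hn : 1 ≤ n) (hA : A.natDegree = n)
    (hB : B.natDegree ≤ n) (hc : IsCoprime A B) :
    ∃ C : ℝ, ∀ x : K, n * logHeight₁ x ≤ logHeight₁ (A.eval x / B.eval x) + C := by
  obtain ⟨M, U, V, U', V', hU, hV, hU', hV', e1, e2⟩ := bez hn hA hB hc
  obtain ⟨C, hC⟩ := logHeight_eval_ge' (K := K) (ι := Fin 2) (ι' := Fin 2) (M := M) (N := n)
    (q := fun a : Fin 2 × Fin 2 => (![![hom M U', hom M V'], ![hom M U, hom M V]] a.1) a.2) (by
      rintro ⟨i, j⟩
      fin_cases i <;> fin_cases j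
      · exact hom_homogeneous M U'
      · exact hom_homogeneous M V'
      · exact hom_homogeneous M U
      · exact hom_homogeneous M V)
  refine ⟨-C, fun x => ?_⟩
  have h1 := hC (fun j : Fin 2 => ![hom n A, hom n B] j) (x := ![x, 1]) (by
    intro k
    fin_cases k
    · have f1 := hom_eval hU' x
      have f2 := hom_eval hV' x
      have f3 := hom_eval hA.le x
      have f4 := hom_eval hB x
      have f5 := congrArg (eval x) e2
      simp only [eval_add, eval_mul, eval_pow, eval_X] at f5
      simp [Fin.sum_univ_two, f1, f2, f3, f4]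
      exact f5
    · have f1 := hom_eval hU x
      have f2 := hom_eval hV x
      have f3 := hom_eval hA.le x
      have f4 := hom_eval hB x
      have f5 := congrArg (eval x) e1
      simp only [eval_add, eval_mul, eval_one] at f5
      simp [Fin.sum_univ_two, f1, f2, f3, f4]
      exact f5)
  have h2 : (fun j : Fin 2 => MvPolynomial.eval ![x, 1] (![hom n A, hom n B] j)) =
      ![A.eval x, B.eval x] := by
    funext j
    fin_cases j
    · exact hom_eval hA.le x
    · exact hom_eval hB x
  rw [h2, ← logHeight₁_eq_logHeight, ← logHeight₁_div_eq_logHeight] at h1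
  linarith

/-- the height of the values of a rational function -/
theorem ratio_ge {A B : K[X]} {n : ℕ} (hn : 1 ≤ n) (hA : A.natDegree ≤ n)
    (hB : B.natDegree ≤ n) (hAB : A.natDegree = n ∨ B.natDegree = n) (hc : IsCoprime A B) :
    ∃ C : ℝ, ∀ x : K, n * logHeight₁ x ≤ logHeight₁ (A.eval x / B.eval x) + C := by
  rcases hAB with h | h
  · exact ratio_ge_aux hn h hB hc
  · obtain ⟨C, hC⟩ := ratio_ge_aux hn h hA hc.symm
    refine ⟨C, fun x => ?_⟩
    have h1 := hC x
    rwa [← inv_div, logHeight₁_inv] at h1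

end Pool.Agent.H79.AB
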