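import Pool.Agent.H79.AB.Five
import Pool.Agent.H79.AB.Bel

/-!
# Isogenies, and the final equivalences
-/

set_option autoImplicit false

namespace Pool.Agent.H79.AB

open NumberField IsDedekindDomain Height Polynomial Pool.Agent.N757.RD Pool.Agent.N757.TL
  Pool.Agent.N746.RK

/-! ### cubic polynomials without double roots -/

theorem cubic_sqf {K : Type} [Field K] [CharZero K] {α β γ : K}
    (h : α ^ 2 * β ^ 2 - 4 * β ^ 3 - 4 * α ^ 3 * γ + 18 * α * β * γ - 27 * γ ^ 2 ≠ 0) :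
    Squarefree (X ^ 3 + C α * X ^ 2 + C β * X + C γ : K[X]) := by
  obtain ⟨f, hf⟩ : ∃ f : K[X], f = X ^ 3 + C α * X ^ 2 + C β * X + C γ := ⟨_, rfl⟩
  have hd : derivative f = C 3 * X ^ 2 + C (2 * α) * X + C β := by
    rw [hf]
    simp only [derivative_add, derivative_mul, derivative_C, derivative_X_pow, derivative_X,
      zero_mul, zero_add, mul_one, add_zero, Nat.cast_ofNat, map_ofNat, C_mul]
    norm_num
    ring
  obtain ⟨Δ, hΔ⟩ : ∃ Δ : K, Δ = α ^ 2 * β ^ 2 - 4 * β ^ 3 - 4 * α ^ 3 * γ + 18 * α * β * γ -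
    27 * γ ^ 2 := ⟨_, rfl⟩
  have h9 : -9 * Δ ≠ 0 := mul_ne_zero (by norm_num) (by rw [hΔ]; exact h)
  have hsep : f.Separable := by
    obtain ⟨a, ha⟩ : ∃ a : K, a = 6 * β - 2 * α ^ 2 := ⟨_, rfl⟩
    obtain ⟨b, hb⟩ : ∃ b : K, b = 9 * γ - α * β := ⟨_, rfl⟩
    refine ⟨C (-9 * Δ)⁻¹ * (-9 * (C (3 * a) * X + C (2 * α * a - 3 * b))),
      C (-9 * Δ)⁻¹ * (C (a ^ 2) + (C (3 * a) * X + C (2 * α * a - 3 * b)) * (3 * X + C α)), ?_⟩
    have e : C (-9 * Δ)⁻¹ * C (-9 * Δ) = (1 : K[X]) := by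
      rw [← C_mul, inv_mul_cancel₀ h9, C_1]
    rw [hd, hf, ← e]
    have e2 : (C (-9 * Δ) : K[X]) = -9 * (C (3 * a) * X + C (2 * α * a - 3 * b)) *
        (X ^ 3 + C α * X ^ 2 + C β * X + C γ) + (C (a ^ 2) + (C (3 * a) * X +
          C (2 * α * a - 3 * b)) * (3 * X + C α)) * (C 3 * X ^ 2 + C (2 * α) * X + C β) := by
      rw [ha, hb, hΔ]
      simp only [C_mul, C_pow, C_sub, C_add, C_neg, map_ofNat]
      ring
    rw [e2]
    ring
  rw [← hf]
  exact hsep.squarefree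

variable {K : Type} [Field K] [NumberField K]

/-! ### isogenies -/

/-- homogenisation of a cubic polynomial -/
noncomputable def H3 (P A B : K[X]) : K[X] :=
  C (P.coeff 3) * A ^ 3 + C (P.coeff 2) * A ^ 2 * B + C (P.coeff 1) * A * B ^ 2 +
    C (P.coeff 0) * B ^ 3

theorem H3_eval {P A B : K[X]} (hP : P.natDegree = 3) {x : K} (hx : B.eval x ≠ 0) :
    (H3 P A B).eval x = B.eval x ^ 3 * P.eval (A.eval x / B.eval x) := by
  have e : P.eval (A.eval x / B.eval x) = P.coeff 0 + P.coeff 1 * (A.eval x / B.eval x) +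
      P.coeff 2 * (A.eval x / B.eval x) ^ 2 + P.coeff 3 * (A.eval x / B.eval x) ^ 3 := by
    rw [eval_eq_sum_range, hP]
    simp [Finset.sum_range_succ]
  rw [e]
  simp only [H3, eval_add, eval_mul, eval_pow, eval_C]
  field_simp
  ring

theorem eq_of_eval {P Q B : K[X]} (hB : B ≠ 0) (h : ∀ x : K, B.eval x ≠ 0 → P.eval x = Q.eval x) :
    P = Q := by
  have h1 : B * (P - Q) = 0 := by
    apply Polynomial.funext
    intro x
    rw [eval_mul, eval_sub, eval_zero]
    by_cases hx : B.eval x = 0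
    · rw [hx, zero_mul]
    · rw [h x hx, sub_self, mul_zero]
  rcases mul_eq_zero.1 h1 with h2 | h2
  · exact absurd h2 hB
  · exact sub_eq_zero.1 h2

/-- **Isogenies.** If `(x, y) ↦ (A / B, y S / B ^ 2)` maps `y ^ 2 = P₁(x)` to `y ^ 2 = P₂(x)`, then
the inequality for `∞` and the zeros of `P₂` implies that for `∞` and the zeros of every divisor of
`P₁ S`. -/
theorem isogeny {P₁ P₂ A B S Q : K[X]} (h1 : P₁.natDegree = 3) (h2 : P₂.natDegree = 3)
    (hc : IsCoprime A B) (hd : B.natDegree < A.natDegree)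
    (hm : ∀ x : K, B.eval x ≠ 0 →
      P₂.eval (A.eval x / B.eval x) = P₁.eval x * (S.eval x / B.eval x ^ 2) ^ 2)
    (hQ : Q ∣ P₁ * S) (hQ2 : 2 ≤ Q.natDegree) (h : V P₂) : V Q := by
  obtain ⟨n, hn⟩ : ∃ n : ℕ, n = A.natDegree := ⟨_, rfl⟩
  rw [← hn] at hd
  have hn1 : 1 ≤ n := by omega
  have hB0 : B ≠ 0 := by
    rintro rfl
    rw [isCoprime_zero_right] at hc
    have := natDegree_eq_zero_of_isUnit hc
    omega
  have hA0 : A ≠ 0 := by
    rintro rfl
    rw [natDegree_zero] at hn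
    omega
  have hP10 : P₁ ≠ 0 := ne_of_deg h1 (by norm_num)
  have hP20 : P₂ ≠ 0 := ne_of_deg h2 (by norm_num)
  have hid : B * H3 P₂ A B = P₁ * S ^ 2 := by
    refine eq_of_eval hB0 fun x hx => ?_
    rw [eval_mul, H3_eval h2 hx, hm x hx, eval_mul, eval_pow]
    field_simp
  have h30 : P₂.coeff 3 ≠ 0 := by
    have h4 := leadingCoeff_ne_zero.2 hP20
    rwa [leadingCoeff, h2] at h4
  have hHd : (H3 P₂ A B).natDegree = 3 * n := by
    have e1 : (C (P₂.coeff 3) * A ^ 3).natDegree = 3 * n := by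
      rw [natDegree_C_mul h30, natDegree_pow, hn]
    have e2 : (C (P₂.coeff 2) * A ^ 2 * B + C (P₂.coeff 1) * A * B ^ 2 +
        C (P₂.coeff 0) * B ^ 3).natDegree < 3 * n := by
      have a1 : (C (P₂.coeff 2) * A ^ 2 * B).natDegree ≤ 2 * n + B.natDegree := by
        refine natDegree_mul_le.trans (Nat.add_le_add_right ?_ _)
        refine (natDegree_C_mul_le _ _).trans ?_
        rw [natDegree_pow, hn]
      have a2 : (C (P₂.coeff 1) * A * B ^ 2).natDegree ≤ n + 2 * B.natDegree := by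
        refine natDegree_mul_le.trans (Nat.add_le_add ?_ ?_)
        · exact (natDegree_C_mul_le _ _).trans hn.ge
        · rw [natDegree_pow]
      have a3 : (C (P₂.coeff 0) * B ^ 3).natDegree ≤ 3 * B.natDegree := by
        refine (natDegree_C_mul_le _ _).trans ?_
        rw [natDegree_pow]
      have a4 := natDegree_add_le (C (P₂.coeff 2) * A ^ 2 * B + C (P₂.coeff 1) * A * B ^ 2)
        (C (P₂.coeff 0) * B ^ 3)
      have a5 := natDegree_add_le (C (P₂.coeff 2) * A ^ 2 * B) (C (P₂.coeff 1) * A * B ^ 2)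
      have a6 : max (C (P₂.coeff 2) * A ^ 2 * B).natDegree
          (C (P₂.coeff 1) * A * B ^ 2).natDegree < 3 * n := max_lt (by omega) (by omega)
      exact lt_of_le_of_lt a4 (max_lt (lt_of_le_of_lt a5 a6) (by omega))
    have e3 : H3 P₂ A B = C (P₂.coeff 3) * A ^ 3 + (C (P₂.coeff 2) * A ^ 2 * B +
        C (P₂.coeff 1) * A * B ^ 2 + C (P₂.coeff 0) * B ^ 3) := by
      unfold H3
      ring
    rw [e3, natDegree_add_eq_left_of_natDegree_lt (by rw [e1]; exact e2), e1]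
  have hH0 : H3 P₂ A B ≠ 0 := ne_of_deg hHd (by omega)
  have hS0 : S ≠ 0 := by
    rintro rfl
    rw [zero_pow (by norm_num), mul_zero] at hid
    exact mul_ne_zero hB0 hH0 hid
  have hdeg := congrArg natDegree hid
  rw [natDegree_mul hB0 hH0, natDegree_mul hP10 (pow_ne_zero 2 hS0), natDegree_pow, hHd, h1] at hdeg
  have hG : V (P₁ * S) := by
    refine pull (F := P₂) (G := P₁ * S) (A := A) (B := B) (H := H3 P₂ A B) (M := P₁) (n := n)
      (k := 2) hn1 hn.ge hd.le (Or.inl hn.symm) hc (by omega) ?_ ?_ ?_ ?_ h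
    · rw [natDegree_mul hP10 hS0, h1]
      omega
    · rw [natDegree_mul hP10 hS0, h1, h2]
      omega
    · intro x hx
      rw [h2, H3_eval h2 hx]
    · rw [hid]
      ring
  exact V_dvd (mul_ne_zero hP10 hS0) hQ2 hQ hG

end Pool.Agent.H79.AB
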