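import Pool.Agent.H79.AB.Iso

/-!
# The abc conjecture over a number field and the points of order two of elliptic curves with isogenies

Let `K` be a number field and let `P ∈ K[X]` be a polynomial without multiple roots. The inequality of
the problem for the `q = deg P + 1` points `∞` and the zeros of `P`, and the points `x ∈ K` of the
projective line, is `(q - 2 - ε) h(x) ≤ ∑ log N(v) / [K : ℚ] + C`, where the sum is over the primes `v`
(outside of a finite set `T`) with `|x|_v > 1` or `|P(x)|_v < 1`. For `P = X (X - 1)` this is the abc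
conjecture over `K`. The zeros of `P` need not be in `K`.

Let `P` be a cubic polynomial, that is, `∞` and the zeros of `P` are the abscissas of the points of order
dividing two of the elliptic curve `E : y² = P(x)`.

(1) The inequality is invariant under isogenies `E₁ → E₂` over `K` (and quadratic twists); for `E₂` it
implies the inequality for the abscissas of the inverse image of `E₂[2]`.

(2), (3), (4) If `E` has an isogeny of degree `2`, `3` or `5` over `K` and a number of `K` attached to
`E` is an integer prime to `2`, `3` or `2`, up to squares, cubes or squares, the inequality is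
equivalent to the abc conjecture over `K`.

Proof. A rational function which is ramified only over the given points carries the inequality to the
inverse image (`Pool.Agent.H79.AB.pull`). With the isogeny of degree two we get the two points
`a ± 2 √b`. With the isogeny of degree three and its dual we get the abscissas of the points of order three
outside of the kernel, and together with the abscissa of the kernel they are projectively equivalent to
`∞` and the zeros of `X³ - k`. With the isogeny of degree five we get the two abscissas `± √(r² + 1)` of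
the kernel. Then one uses the library theorem `RootsOverNumberFields` for `∞` and the roots of `X^n - k`.
The converse is Belyi's theorem (over `ℚ`).
-/

set_option autoImplicit false

namespace Pool.Agent.H79.AB.IsogenyFamilies

open NumberField IsDedekindDomain Polynomial

variable {K : Type} [Field K] [NumberField K]

/-- the absolute logarithmic height `h(x)` of `x`, that is of the point `[x : 1]` -/
noncomputable def height (x : K) : ℝ :=
  (∑ w : InfinitePlace K, (w.mult : ℝ) * Real.log (max 1 (w x)) +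
    ∑ᶠ v : HeightOneSpectrum (𝓞 K), Real.log (max 1 (FinitePlace.mk v x))) /
    (Module.finrank ℚ K : ℝ)

/-- the truncated counting function of `x` with respect to `∞` and the zeros of `P`: the sum of
`log N(v) / [K : ℚ]` over the primes `v` outside of `T` with `|x|_v > 1` or `|P(x)|_v < 1` -/
noncomputable def count (T : Set (HeightOneSpectrum (𝓞 K))) (P : K[X]) (x : K) : ℝ :=
  (∑ᶠ (v : HeightOneSpectrum (𝓞 K))
      (_ : v ∉ T ∧ (1 < FinitePlace.mk v x ∨ FinitePlace.mk v (P.eval x) < 1)),
    Real.log (Ideal.absNorm v.asIdeal : ℝ)) / (Module.finrank ℚ K : ℝ)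

/-- the inequality of the problem for `∞` and the zeros of `P`, in number `q = deg P + 1`, the primes of
`T` being left out: for all `ε > 0` there is `C` with `(q - 2 - ε) h(x) ≤ count T P x + C` for all
`x ∈ K` with `P(x) ≠ 0` -/
def Ineq (T : Set (HeightOneSpectrum (𝓞 K))) (P : K[X]) : Prop :=
  ∀ ε : ℝ, 0 < ε → ∃ C : ℝ, ∀ x : K, P.eval x ≠ 0 →
    ((P.natDegree : ℝ) - 1 - ε) * height x ≤ count T P x + C

open Pool.Agent.N757.RD Pool.Agent.N757.TL Pool.Agent.N746.RK

theorem height_mul (x : K) : dg K * height x = D x := by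
  have e : height x = D x / dg K := by
    unfold height
    rw [D_eq]
    have h1 : ∀ w : InfinitePlace K, Real.log (max 1 (w x)) = Real.posLog (w x) := fun w =>
      log_max_one _ (apply_nonneg _ _)
    have h2 : ∀ v : HeightOneSpectrum (𝓞 K), Real.log (max 1 (FinitePlace.mk v x)) =
        Real.posLog (FinitePlace.mk v x) := fun v => log_max_one _ (apply_nonneg _ _)
    simp only [h1, h2]
    rfl
  rw [e, mul_div_cancel₀ _ dg_pos.ne']

theorem count_mul (T : Set (HeightOneSpectrum (𝓞 K))) (P : K[X]) (x : K) :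
    dg K * count T P x = W {v | v ∉ T ∧ v ∈ J P x} := by
  rw [show count T P x = W {v | v ∉ T ∧ v ∈ J P x} / dg K from rfl, mul_div_cancel₀ _ dg_pos.ne']

theorem ineq_iff {T : Set (HeightOneSpectrum (𝓞 K))} (hT : T.Finite) {P : K[X]}
    (hP : 2 ≤ P.natDegree) : Ineq T P ↔ V P := by
  have hd := dg_pos (K := K)
  obtain ⟨q, hq⟩ : ∃ q : ℝ, q = (P.natDegree : ℝ) - 1 := ⟨_, rfl⟩
  have hq1 : 1 ≤ q := by
    have : (2 : ℝ) ≤ P.natDegree := by exact_mod_cast hP
    linarith
  have hWT := W_nonneg T
  have b1 : ∀ x : K, P.eval x ≠ 0 → dg K * count T P x ≤ W (J P x) := by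
    intro x hx
    rw [count_mul]
    exact W_mono (fun v hv => hv.2) (finite_J hx)
  have b2 : ∀ x : K, P.eval x ≠ 0 → W (J P x) ≤ dg K * count T P x + W T := by
    intro x hx
    rw [count_mul]
    have f1 : {v | v ∉ T ∧ v ∈ J P x}.Finite := (finite_J hx).subset fun v hv => hv.2
    refine (W_mono (B := {v | v ∉ T ∧ v ∈ J P x} ∪ T) ?_ (f1.union hT)).trans (W_union f1 hT)
    intro v hv
    by_cases h : v ∈ T
    · exact Or.inr h
    · exact Or.inl ⟨h, hv⟩
  constructor
  · intro h ε hε
    obtain ⟨C, hC⟩ := h (ε / (1 + ε)) (by positivity)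
    refine ⟨(1 + ε) * (dg K * |C|), fun x hx => ?_⟩
    have h1 := hC x hx
    have h2 : dg K * ((q - ε / (1 + ε)) * height x) ≤ dg K * (count T P x + C) := by
      rw [hq]
      exact mul_le_mul_of_nonneg_left h1 hd.le
    have h3 : (q - ε / (1 + ε)) * D x ≤ W (J P x) + dg K * |C| := by
      have e1 : dg K * ((q - ε / (1 + ε)) * height x) = (q - ε / (1 + ε)) * D x := by
        rw [← height_mul]; ring
      have e2 : dg K * C ≤ dg K * |C| := mul_le_mul_of_nonneg_left (le_abs_self C) hd.le
      have e3 := b1 x hx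
      rw [e1] at h2
      linarith
    have h4 : (1 + ε) * ((q - ε / (1 + ε)) * D x) ≤ (1 + ε) * (W (J P x) + dg K * |C|) :=
      mul_le_mul_of_nonneg_left h3 (by linarith)
    have h5 : (1 + ε) * ((q - ε / (1 + ε)) * D x) = (q + ε * (q - 1)) * D x := by
      field_simp
      ring
    have h6 : 0 ≤ ε * (q - 1) * D x := by
      have := D_nonneg x
      have h8 : 0 ≤ q - 1 := by linarith
      positivity
    rw [← hq]
    rw [h5] at h4
    nlinarith
  · intro h ε hε
    obtain ⟨C, hC⟩ := h (ε / q) (by positivity)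
    refine ⟨(W T + |C|) / dg K, fun x hx => ?_⟩
    have h1 := hC x hx
    rw [← hq] at h1
    rw [← hq]
    have hD := D_nonneg x
    have hq0 : 0 < q := by linarith
    have hW := W_nonneg (J P x)
    have h2 : (q - ε) * D x ≤ W (J P x) + |C| := by
      rcases le_or_gt q ε with h0 | h0
      · have : (q - ε) * D x ≤ 0 := mul_nonpos_of_nonpos_of_nonneg (by linarith) hD
        have := abs_nonneg C
        linarith
      · have e1 : (1 + ε / q) * ((q - ε) * D x) ≤ (1 + ε / q) * (W (J P x) + |C|) := by
          have e2 : (1 + ε / q) * ((q - ε) * D x) = (q - ε * ε / q) * D x := by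
            field_simp
            ring
          have e3 : 0 ≤ ε * ε / q * D x := by positivity
          have e4 : C ≤ (1 + ε / q) * |C| := by
            have := le_abs_self C
            have h9 : 0 ≤ ε / q * |C| := by positivity
            nlinarith
          rw [e2]
          nlinarith
        exact le_of_mul_le_mul_left e1 (by positivity)
    have h3 := b2 x hx
    have h4 : dg K * ((q - ε) * height x) ≤ dg K * (count T P x + (W T + |C|) / dg K) := by
      have e1 : dg K * ((q - ε) * height x) = (q - ε) * D x := by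
        rw [← height_mul]; ring
      have e2 : dg K * ((W T + |C|) / dg K) = W T + |C| := by field_simp
      rw [e1, mul_add, e2]
      linarith
    exact le_of_mul_le_mul_left h4 hd

open Pool.Agent.H79.AB

/-- The inequality for `∞` and the zeros of `P` is equivalent to the abc conjecture over `K`, and the
inequality for any larger set implies it. -/
def EquivABC (P : K[X]) : Prop :=
  ∀ T T' : Set (HeightOneSpectrum (𝓞 K)), T.Finite → T'.Finite →
    (Ineq T P ↔ Ineq T' (X * (X - 1) : K[X])) ∧
    ∀ Q : K[X], Q ≠ 0 → P ∣ Q → Ineq T Q → Ineq T' (X * (X - 1) : K[X])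

theorem equiv_of {P : K[X]} (hs : Squarefree P) (h2 : 2 ≤ P.natDegree) (h : V P → ABC K) :
    EquivABC P := by
  intro T T' hT hT'
  have e2 : 2 ≤ (X * (X - 1) : K[X]).natDegree := natDegree_three.ge
  refine ⟨?_, fun Q hQ hd hI => ?_⟩
  · rw [ineq_iff hT h2, ineq_iff hT' e2, V_three]
    exact ⟨h, of_ABC hs h2⟩
  · rw [ineq_iff hT (h2.trans (natDegree_le_of_dvd hd hQ))] at hI
    rw [ineq_iff hT' e2, V_three]
    exact h (V_dvd hQ h2 hd hI)

/-- **Elliptic curves with isogenies.** -/
theorem result (K : Type) [Field K] [NumberField K] :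
    -- (1) isogenies `(x, y) ↦ (A / B, y S / B ^ 2)` from `y ^ 2 = P₁` to `y ^ 2 = P₂`
    (∀ P₁ P₂ A B S Q : K[X], P₁.natDegree = 3 → P₂.natDegree = 3 → IsCoprime A B →
      B.natDegree < A.natDegree →
      (∀ x : K, B.eval x ≠ 0 →
        P₂.eval (A.eval x / B.eval x) = P₁.eval x * (S.eval x / B.eval x ^ 2) ^ 2) →
      Q ∣ P₁ * S → 2 ≤ Q.natDegree →
      ∀ T T' : Set (HeightOneSpectrum (𝓞 K)), T.Finite → T'.Finite → Ineq T P₂ → Ineq T' Q) ∧
    -- (2) degree two
    (∀ (a b z : K) (m : ℤ), b ≠ 0 → a ^ 2 - 4 * b ≠ 0 → z ≠ 0 → Odd m →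
      (b = m * z ^ 2 ∨ a ^ 2 - 4 * b = m * z ^ 2) →
      EquivABC (X * (X ^ 2 + C a * X + C b))) ∧
    -- (3) degree three
    (∀ (a c z : K) (m : ℤ), c ≠ 0 → 4 * a ^ 3 - 27 * c ≠ 0 → z ≠ 0 → ¬ 3 ∣ m →
      (c = m * z ^ 3 ∨ 4 * a ^ 3 - 27 * c = m * z ^ 3) →
      EquivABC (X ^ 3 + (C a * X + C c) ^ 2)) ∧
    -- (4) degree five
    (∀ (r z : K) (m : ℤ), 2 * r ≠ 11 → z ≠ 0 → Odd m → r ^ 2 + 1 = m * z ^ 2 →
      EquivABC (X ^ 3 + C (r ^ 2 + 1) * X ^ 2 + C ((2 * r - 1) * (r ^ 2 + 1)) * X +
        C ((r ^ 2 + 1) ^ 2))) := by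
  refine ⟨?_, ?_, ?_, ?_⟩
  · intro P₁ P₂ A B S Q h1 h2 hc hd hm hQ hQ2 T T' hT hT' h
    rw [ineq_iff hT (by omega)] at h
    rw [ineq_iff hT' hQ2]
    exact isogeny h1 h2 hc hd hm hQ hQ2 h
  · intro a b z m hb hD hz hm hor
    have hm0 : m ≠ 0 := by
      rintro rfl
      exact absurd hm (by decide)
    have hcong : Cong 2 m := Or.inr ⟨Nat.prime_two, by
      rw [Nat.cast_ofNat, Int.two_dvd_ne_zero]
      exact Int.odd_iff.1 hm⟩
    have hmK : ((m : ℤ) : K) ≠ 0 := by exact_mod_cast hm0
    refine equiv_of ?_ ?_ fun h => ?_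
    · have := cubic_sqf (K := K) (α := a) (β := b) (γ := 0) (by
        have : a ^ 2 * b ^ 2 - 4 * b ^ 3 - 4 * a ^ 3 * 0 + 18 * a * b * 0 - 27 * 0 ^ 2 =
          b ^ 2 * (a ^ 2 - 4 * b) := by ring
        rw [this]
        exact mul_ne_zero (pow_ne_zero _ hb) hD)
      have e : (X * (X ^ 2 + C a * X + C b) : K[X]) = X ^ 3 + C a * X ^ 2 + C b * X + C 0 := by
        rw [C_0]
        ring
      rw [e]
      exact this
    · have e : (X ^ 2 + C a * X + C b : K[X]).natDegree = 2 := by compute_degree!
      have e0 : (X ^ 2 + C a * X + C b : K[X]) ≠ 0 := ne_of_deg e (by norm_num)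
      rw [natDegree_mul X_ne_zero e0, natDegree_X, e]
      norm_num
    · rcases hor with hor | hor
      · have h1 := two_one hD h
        have e : 4 * b = ((m : ℤ) : K) * (2 * z) ^ 2 := by rw [hor]; ring
        rw [e] at h1
        exact (RT_iff le_rfl hm0 hcong (mul_ne_zero two_ne_zero hz)).1 h1
      · have h1 := two_two h
        have e : (a ^ 2 - 4 * b) / 4 = ((m : ℤ) : K) * (z / 2) ^ 2 := by
          rw [hor]
          field_simp
          norm_num
        rw [e] at h1
        exact (RT_iff le_rfl hm0 hcong (div_ne_zero hz two_ne_zero)).1 h1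
  · intro a c z m hc hD hz hm hor
    have hm0 : m ≠ 0 := by
      rintro rfl
      exact hm (dvd_zero _)
    have hcong : Cong 3 (2 * m) := Or.inr ⟨Nat.prime_three, by
      intro h
      apply hm
      have h3 : Prime (3 : ℤ) := Int.prime_three
      rcases h3.dvd_or_dvd (by exact_mod_cast h : (3 : ℤ) ∣ 2 * m) with h1 | h1
      · norm_num at h1
      · exact h1⟩
    have h2m : 2 * m ≠ 0 := mul_ne_zero two_ne_zero hm0
    have e0 : (X ^ 3 + (C a * X + C c) ^ 2 : K[X]) = P3 1 a c := by
      unfold P3
      rw [C_1, one_mul]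
    rw [e0]
    refine equiv_of ?_ (by rw [P3_deg]; norm_num) fun h => ?_
    · have := cubic_sqf (K := K) (α := a ^ 2) (β := 2 * a * c) (γ := c ^ 2) (by
        have : (a ^ 2) ^ 2 * (2 * a * c) ^ 2 - 4 * (2 * a * c) ^ 3 - 4 * (a ^ 2) ^ 3 * c ^ 2 +
          18 * a ^ 2 * (2 * a * c) * c ^ 2 - 27 * (c ^ 2) ^ 2 = c ^ 3 * (4 * a ^ 3 - 27 * c) := by
            ring
        rw [this]
        exact mul_ne_zero (pow_ne_zero _ hc) hD)
      have e : P3 1 a c = X ^ 3 + C (a ^ 2) * X ^ 2 + C (2 * a * c) * X + C (c ^ 2) := by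
        unfold P3
        simp only [C_mul, C_pow, map_ofNat, C_1]
        ring
      rw [e]
      exact this
    · obtain ⟨g1, g2⟩ := three_main hc hD h
      rcases hor with hor | hor
      · have hc' : (27 * c - 4 * 1 * a ^ 3) / 9 ≠ 0 := by
          refine div_ne_zero ?_ (by norm_num)
          intro h0
          apply hD
          linear_combination -h0
        have e : c / (4 * ((27 * c - 4 * 1 * a ^ 3) / 9) ^ 3) =
            ((2 * m : ℤ) : K) * (z / (2 * ((27 * c - 4 * 1 * a ^ 3) / 9))) ^ 3 := by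
          obtain ⟨w, hw⟩ : ∃ w : K, w = (27 * c - 4 * 1 * a ^ 3) / 9 := ⟨_, rfl⟩
          rw [← hw] at hc' ⊢
          rw [hor]
          push_cast
          field_simp
          norm_num
        rw [e] at g2
        exact (RT_iff (by norm_num) h2m hcong (div_ne_zero hz (mul_ne_zero two_ne_zero hc'))).1 g2
      · have e : (4 * 1 * a ^ 3 - 27 * c) / (108 * 1 * c ^ 3) =
            ((2 * m : ℤ) : K) * (z / (6 * c)) ^ 3 := by
          rw [mul_one 4, hor]
          push_cast
          field_simp
          norm_num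
        rw [e] at g1
        exact (RT_iff (by norm_num) h2m hcong
          (div_ne_zero hz (mul_ne_zero (by norm_num) hc))).1 g1
  · intro r z m hr hz hm hor
    have hm0 : m ≠ 0 := by
      rintro rfl
      exact absurd hm (by decide)
    have hmK : ((m : ℤ) : K) ≠ 0 := by exact_mod_cast hm0
    have hk : r ^ 2 + 1 ≠ 0 := by
      rw [hor]
      exact mul_ne_zero hmK (pow_ne_zero _ hz)
    have h11 : 2 * r - 11 ≠ 0 := sub_ne_zero.2 hr
    have hcong : Cong 2 (5 * m) := Or.inr ⟨Nat.prime_two, by
      rw [Nat.cast_ofNat, Int.two_dvd_ne_zero]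
      exact Int.odd_iff.1 (Odd.mul (by decide) hm)⟩
    refine equiv_of ?_ ?_ fun h => ?_
    · refine cubic_sqf (K := K) (α := r ^ 2 + 1) (β := (2 * r - 1) * (r ^ 2 + 1))
        (γ := (r ^ 2 + 1) ^ 2) ?_
      have : (r ^ 2 + 1) ^ 2 * ((2 * r - 1) * (r ^ 2 + 1)) ^ 2 -
        4 * ((2 * r - 1) * (r ^ 2 + 1)) ^ 3 - 4 * (r ^ 2 + 1) ^ 3 * (r ^ 2 + 1) ^ 2 +
        18 * (r ^ 2 + 1) * ((2 * r - 1) * (r ^ 2 + 1)) * (r ^ 2 + 1) ^ 2 -
        27 * ((r ^ 2 + 1) ^ 2) ^ 2 = 4 * (r ^ 2 + 1) ^ 3 * (2 * r - 11) := by ring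
      rw [this]
      exact mul_ne_zero (mul_ne_zero (by norm_num) (pow_ne_zero _ hk)) h11
    · have := P5_deg r
      unfold P5 at this
      omega
    · obtain ⟨s, hs⟩ : ∃ s : K, s = (11 * r + 2) / (2 * r - 11) := ⟨_, rfl⟩
      have e1 : 2 * s - 11 = 125 / (2 * r - 11) := by
        rw [hs]
        field_simp
        ring
      have hs11 : 2 * s - 11 ≠ 0 := by
        rw [e1]
        exact div_ne_zero (by norm_num) h11
      have e2 : (11 * s + 2) / (2 * s - 11) = r := by
        rw [div_eq_iff hs11, e1, hs, ← mul_div_assoc, ← mul_div_assoc, div_add' _ _ _ h11]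
        congr 1
        ring
      have e3 : s ^ 2 + 1 = ((5 * m : ℤ) : K) * (5 * z / (2 * r - 11)) ^ 2 := by
        have : s ^ 2 + 1 = 125 * (r ^ 2 + 1) / (2 * r - 11) ^ 2 := by
          rw [eq_div_iff (pow_ne_zero _ h11), hs, div_pow, add_mul,
            div_mul_cancel₀ _ (pow_ne_zero _ h11)]
          ring
        rw [this, hor]
        push_cast
        field_simp
        ring
      have hs1 : s ^ 2 + 1 ≠ 0 := by
        rw [e3]
        refine mul_ne_zero ?_ (pow_ne_zero _ (div_ne_zero (mul_ne_zero (by norm_num) hz) h11))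
        exact_mod_cast mul_ne_zero (by norm_num : (5 : ℤ) ≠ 0) hm0
      have h1 : V (P5 ((11 * s + 2) / (2 * s - 11))) := by
        rw [e2]
        exact h
      have h2 := five hs1 hs11 h1
      rw [e3] at h2
      exact (RT_iff le_rfl (mul_ne_zero (by norm_num) hm0) hcong
        (div_ne_zero (mul_ne_zero (by norm_num) hz) h11)).1 h2

end Pool.Agent.H79.AB.IsogenyFamilies
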