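import Pool.Agent.H79.AB.Bel
import Pool.Agent.H79.AB.Fam

/-!
# Pulling back by `∏ (x - a i) ^ (e i)`
-/

set_option autoImplicit false
set_option linter.unusedSectionVars false
set_option linter.unusedVariables false

namespace Pool.Agent.H79.AB

open NumberField IsDedekindDomain Height Polynomial Pool.Agent.N757.RD Pool.Agent.N757.TL
  Pool.Agent.N746.RK

section algebra

variable {k : Type} [Field k] {ι : Type} [Fintype ι] [DecidableEq ι]

/-- `∏ (X - a i) ^ (n i)` -/
noncomputable def mP (a : ι → k) (n : ι → ℕ) : k[X] := ∏ i, (X - C (a i)) ^ n i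

/-- the other factors -/
noncomputable def mE (a : ι → k) (i : ι) : k[X] := ∏ j ∈ Finset.univ.erase i, (X - C (a j))

noncomputable def mR (a : ι → k) : k[X] := ∏ i, (X - C (a i))

/-- the numerator of the logarithmic derivative -/
noncomputable def mH (a : ι → k) (e : ι → ℤ) : k[X] := ∑ i, C ((e i : ℤ) : k) * mE a i

theorem mR_eq (a : ι → k) (i : ι) : mR a = (X - C (a i)) * mE a i :=
  (Finset.mul_prod_erase Finset.univ (fun j => X - C (a j)) (Finset.mem_univ i)).symm

theorem mP_der (a : ι → k) (n : ι → ℕ) :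
    mR a * derivative (mP a n) = mP a n * ∑ i, C ((n i : ℕ) : k) * mE a i := by
  unfold mP
  rw [derivative_prod_finset, Finset.mul_sum, Finset.mul_sum]
  refine Finset.sum_congr rfl fun i _ => ?_
  have e1 : (∏ j, (X - C (a j)) ^ n j : k[X]) =
      (X - C (a i)) ^ n i * ∏ j ∈ Finset.univ.erase i, (X - C (a j)) ^ n j :=
    (Finset.mul_prod_erase Finset.univ (fun j => (X - C (a j)) ^ n j) (Finset.mem_univ i)).symm
  rw [e1, mR_eq a i, derivative_X_sub_C_pow]
  rcases Nat.eq_zero_or_pos (n i) with h | h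
  · rw [h]
    simp
  · obtain ⟨m, hm⟩ := Nat.exists_eq_add_of_le h
    rw [hm, show 1 + m - 1 = m by omega, map_natCast]
    push_cast
    ring

theorem mP_deg (a : ι → k) (n : ι → ℕ) : (mP a n).natDegree = ∑ i, n i := by
  unfold mP
  rw [natDegree_prod _ _ fun i _ => pow_ne_zero _ (X_sub_C_ne_zero _)]
  refine Finset.sum_congr rfl fun i _ => ?_
  rw [natDegree_pow, natDegree_X_sub_C, mul_one]

theorem mP_ne (a : ι → k) (n : ι → ℕ) : mP a n ≠ 0 :=
  Finset.prod_ne_zero_iff.2 fun i _ => pow_ne_zero _ (X_sub_C_ne_zero _)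

theorem mR_deg (a : ι → k) : (mR a).natDegree = Fintype.card ι := by
  unfold mR
  rw [natDegree_prod _ _ fun i _ => X_sub_C_ne_zero _]
  simp

theorem mR_ne (a : ι → k) : mR a ≠ 0 := Finset.prod_ne_zero_iff.2 fun i _ => X_sub_C_ne_zero _

theorem mR_pow (a : ι → k) (n : ι → ℕ) {N : ℕ} (h : ∀ i, n i ≤ N) : mP a n ∣ mR a ^ N := by
  unfold mP mR
  rw [← Finset.prod_pow]
  exact Finset.prod_dvd_prod_of_dvd _ _ fun i _ => pow_dvd_pow _ (h i)

/-- `B ^ m P (A / B)` -/
noncomputable def hm (m : ℕ) (P A B : k[X]) : k[X] :=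
  ∑ j ∈ Finset.range (m + 1), C (P.coeff j) * (A ^ j * B ^ (m - j))

theorem hm_eval {m : ℕ} {P A B : k[X]} (hP : P.natDegree ≤ m) {x : k} (hx : B.eval x ≠ 0) :
    (hm m P A B).eval x = B.eval x ^ m * P.eval (A.eval x / B.eval x) := by
  unfold hm
  rw [eval_finsetSum, eval_eq_sum_range' (Nat.lt_succ_of_le hP), Finset.mul_sum]
  refine Finset.sum_congr rfl fun j hj => ?_
  have hj' : j ≤ m := Nat.lt_succ_iff.1 (Finset.mem_range.1 hj)
  rw [eval_mul, eval_C, eval_mul, eval_pow, eval_pow, div_pow]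
  have e : B.eval x ^ m = B.eval x ^ j * B.eval x ^ (m - j) := by
    rw [← pow_add]; congr 1; omega
  rw [e]
  field_simp

theorem hm_deg {m n : ℕ} {P A B : k[X]} (hA : A.natDegree ≤ n) (hB : B.natDegree ≤ n) :
    (hm m P A B).natDegree ≤ n * m := by
  unfold hm
  refine natDegree_sum_le_of_forall_le _ _ fun j hj => ?_
  have hj' : j ≤ m := Nat.lt_succ_iff.1 (Finset.mem_range.1 hj)
  refine (natDegree_C_mul_le _ _).trans ((natDegree_mul_le).trans ?_)
  calc (A ^ j).natDegree + (B ^ (m - j)).natDegree ≤ j * A.natDegree + (m - j) * B.natDegree :=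
        Nat.add_le_add natDegree_pow_le natDegree_pow_le
    _ ≤ j * n + (m - j) * n := Nat.add_le_add (Nat.mul_le_mul_left _ hA) (Nat.mul_le_mul_left _ hB)
    _ = n * m := by rw [← add_mul, mul_comm]; congr 1; omega

/-- Euler's identity, up to a multiple of the Wronskian -/
theorem hm_der {m : ℕ} {P A B Hc : k[X]} (hW : Hc ∣ derivative A * B - A * derivative B)
    (h : Hc ∣ hm m P A B) : Hc ∣ B * derivative (hm m P A B) := by
  have key : ∀ j l : ℕ, Hc ∣ B * derivative (A ^ j * B ^ l) -
      ((j : k[X]) + l) * derivative B * (A ^ j * B ^ l) := by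
    intro j l
    have e : B * derivative (A ^ j * B ^ l) - ((j : k[X]) + l) * derivative B * (A ^ j * B ^ l) =
        (derivative A * B - A * derivative B) * ((j : k[X]) * A ^ (j - 1) * B ^ l) := by
      rw [derivative_mul, derivative_pow, derivative_pow, map_natCast, map_natCast]
      rcases Nat.eq_zero_or_pos j with hj | hj <;> rcases Nat.eq_zero_or_pos l with hl | hl
      · subst hj hl; simp
      · subst hj
        obtain ⟨t, rfl⟩ := Nat.exists_eq_add_of_le hl
        rw [show 1 + t - 1 = t by omega]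
        push_cast
        ring
      · subst hl
        obtain ⟨t, rfl⟩ := Nat.exists_eq_add_of_le hj
        rw [show 1 + t - 1 = t by omega]
        push_cast
        ring
      · obtain ⟨t, rfl⟩ := Nat.exists_eq_add_of_le hj
        obtain ⟨u, rfl⟩ := Nat.exists_eq_add_of_le hl
        rw [show 1 + t - 1 = t by omega, show 1 + u - 1 = u by omega]
        push_cast
        ring
    rw [e]
    exact hW.mul_right _
  have h1 : Hc ∣ B * derivative (hm m P A B) - (m : k[X]) * derivative B * hm m P A B := by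
    unfold hm
    rw [derivative_sum, Finset.mul_sum, Finset.mul_sum, ← Finset.sum_sub_distrib]
    refine Finset.dvd_sum fun j hj => ?_
    have hj' : j ≤ m := Nat.lt_succ_iff.1 (Finset.mem_range.1 hj)
    rw [derivative_C_mul]
    have h2 := (key j (m - j)).mul_left (C (P.coeff j))
    have e : ((j : k[X]) + ((m - j : ℕ) : k[X])) = (m : k[X]) := by
      rw [← Nat.cast_add]
      congr 1
      omega
    rw [e] at h2
    convert h2 using 1
    ring
  have h3 := h1.add (h.mul_left ((m : k[X]) * derivative B))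
  rwa [sub_add_cancel] at h3

theorem mH_coeff (a : ι → k) (e : ι → ℤ) :
    (mH a e).coeff (Fintype.card ι - 1) = ((∑ i, e i : ℤ) : k) := by
  unfold mH
  rw [finsetSum_coeff]
  push_cast
  refine Finset.sum_congr rfl fun i _ => ?_
  rw [coeff_C_mul]
  have hm : (mE a i).Monic := monic_prod_of_monic _ _ fun j _ => monic_X_sub_C _
  have hd : (mE a i).natDegree = Fintype.card ι - 1 := by
    unfold mE
    rw [natDegree_prod _ _ fun i _ => X_sub_C_ne_zero _]
    simp
  have := hm.coeff_natDegree
  rw [hd] at this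
  rw [this, mul_one]

theorem mH_deg_le (a : ι → k) (e : ι → ℤ) : (mH a e).natDegree ≤ Fintype.card ι - 1 := by
  unfold mH
  refine natDegree_sum_le_of_forall_le _ _ fun i _ => ?_
  refine (natDegree_C_mul_le _ _).trans ?_
  unfold mE
  rw [natDegree_prod _ _ fun i _ => X_sub_C_ne_zero _]
  simp

theorem mH_deg [CharZero k] (a : ι → k) (e : ι → ℤ) (hs : ∑ i, e i ≠ 0) :
    (mH a e).natDegree = Fintype.card ι - 1 := by
  refine le_antisymm (mH_deg_le a e) (le_natDegree_of_ne_zero ?_)
  rw [mH_coeff]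
  exact_mod_cast hs

theorem mE_eval (a : ι → k) (i : ι) (x : k) :
    (mE a i).eval x = ∏ j ∈ Finset.univ.erase i, (x - a j) := by
  unfold mE
  rw [eval_prod]
  simp

theorem mH_eval (a : ι → k) (e : ι → ℤ) (i : ι) :
    (mH a e).eval (a i) = e i * (mE a i).eval (a i) := by
  unfold mH
  rw [eval_finsetSum, Finset.sum_eq_single i]
  · rw [eval_mul, eval_C]
  · intro j _ hj
    rw [eval_mul, mE_eval, Finset.prod_eq_zero (i := i), mul_zero]
    · exact Finset.mem_erase.2 ⟨hj.symm, Finset.mem_univ _⟩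
    · exact sub_self _
  · intro h
    exact absurd (Finset.mem_univ _) h

theorem mE_ne {a : ι → k} (ha : Function.Injective a) (i : ι) : (mE a i).eval (a i) ≠ 0 := by
  rw [mE_eval]
  refine Finset.prod_ne_zero_iff.2 fun j hj => sub_ne_zero.2 fun h => ?_
  exact (Finset.mem_erase.1 hj).1 (ha h).symm

theorem mP_cop {F : k[X]} {a : ι → k} (n : ι → ℕ) (h : ∀ i, F.eval (a i) ≠ 0) :
    IsCoprime F (mP a n) := by
  unfold mP
  refine IsCoprime.prod_right fun i _ => IsCoprime.pow_right ?_
  have h1 : IsCoprime (X - C (a i)) F := by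
    rw [(irreducible_X_sub_C (a i)).coprime_iff_not_dvd, dvd_iff_isRoot]
    exact h i
  exact h1.symm

theorem mR_eq_mP (a : ι → k) : mR a = mP a fun _ => 1 := by
  unfold mR mP
  simp

/-- **the critical points are double zeros** -/
theorem crit [CharZero k] {a : ι → k} (ha : Function.Injective a) {e : ι → ℤ} (he : ∀ i, e i ≠ 0)
    (hsq : Squarefree (mH a e)) {m : ℕ} {P A B : k[X]} (hA : A = mP a fun i => (e i).toNat)
    (hB : B = mP a fun i => (-e i).toNat) (h : mH a e ∣ hm m P A B) :
    ∃ T, hm m P A B = mH a e * T ∧ mH a e ∣ T := by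
  have hH : ∀ i, (mH a e).eval (a i) ≠ 0 := fun i => by
    rw [mH_eval]
    exact mul_ne_zero (by exact_mod_cast he i) (mE_ne ha i)
  have hR : IsCoprime (mH a e) (mR a) := by
    rw [mR_eq_mP]
    exact mP_cop _ hH
  have hBc : IsCoprime (mH a e) B := by
    rw [hB]
    exact mP_cop _ hH
  have hRW : mR a * (derivative A * B - A * derivative B) = A * B * mH a e := by
    have e1 := mP_der a fun i => (e i).toNat
    have e2 := mP_der a fun i => (-e i).toNat
    rw [← hA] at e1
    rw [← hB] at e2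
    have e3 : mH a e = ∑ i, C (((e i).toNat : ℕ) : k) * mE a i -
        ∑ i, C (((-e i).toNat : ℕ) : k) * mE a i := by
      unfold mH
      rw [← Finset.sum_sub_distrib]
      refine Finset.sum_congr rfl fun i _ => ?_
      rw [← sub_mul, ← C_sub]
      congr 2
      have := Int.toNat_sub_toNat_neg (e i)
      rw [← Int.cast_natCast (R := k) (e i).toNat, ← Int.cast_natCast (R := k) (-e i).toNat,
        ← Int.cast_sub, this]
    rw [e3]
    linear_combination B * e1 - A * e2
  have hW : mH a e ∣ derivative A * B - A * derivative B :=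
    hR.dvd_of_dvd_mul_left (by rw [hRW]; exact dvd_mul_left _ _)
  have h1 : mH a e ∣ derivative (hm m P A B) := hBc.dvd_of_dvd_mul_left (hm_der hW h)
  obtain ⟨T, hT⟩ := h
  refine ⟨T, hT, ?_⟩
  rw [hT, derivative_mul] at h1
  have h2 : mH a e ∣ derivative (mH a e) * T := by
    have h3 := h1.sub (dvd_mul_right (mH a e) (derivative T))
    rwa [add_sub_cancel_right] at h3
  have hsep : (mH a e).Separable := PerfectField.separable_iff_squarefree.2 hsq
  exact IsCoprime.dvd_of_dvd_mul_left hsep h2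

end algebra

variable {K : Type} [Field K] [NumberField K]

/-- two points of `K` -/
theorem two_points {a b : K} (h : a ≠ b) (hV : V ((X - C a) * (X - C b))) :
    V (X * (X - 1) : K[X]) := by
  have hba : b - a ≠ 0 := sub_ne_zero.2 h.symm
  have hd : ((X - C a) * (X - C b)).natDegree = 2 := by
    rw [natDegree_mul (X_sub_C_ne_zero _) (X_sub_C_ne_zero _), natDegree_X_sub_C,
      natDegree_X_sub_C]
  refine pull' (n := 1) (m := 2) (g := 2) (k := 1) (A := C (b - a) * X + C a) (B := C 1)
    (H := C ((b - a) ^ 2) * (X * (X - 1))) (M := C ((b - a) ^ 2)⁻¹) le_rfl hd natDegree_three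
    (natDegree_linear_le) (by simp) (Or.inl (natDegree_linear hba)) (cop_C one_ne_zero _) le_rfl
    le_rfl (by norm_num) ?_ ?_ hV
  · intro x _
    simp only [eval_mul, eval_add, eval_sub, eval_X, eval_C, eval_one, div_one]
    ring
  · rw [pow_one]
    have : C ((b - a) ^ 2) * C ((b - a) ^ 2)⁻¹ = (1 : K[X]) := by
      rw [← C_mul, mul_inv_cancel₀ (pow_ne_zero _ hba), C_1]
    rw [C_1]
    linear_combination -(X * (X - 1)) * this

/-- **The inequality for `0`, `∞` and the critical values of `∏ (x - a i) ^ (e i)`.** -/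
theorem mult {ι : Type} [Fintype ι] [DecidableEq ι] {a : ι → K} (ha : Function.Injective a)
    {e : ι → ℤ} (he : ∀ i, e i ≠ 0) (hs : ∑ i, e i ≠ 0) (hι : 2 ≤ Fintype.card ι)
    (hsq : Squarefree (mH a e)) {P : K[X]} (hP0 : P.eval 0 ≠ 0) (hP1 : 1 ≤ P.natDegree)
    (hc : mH a e ∣ hm P.natDegree P (mP a fun i => (e i).toNat) (mP a fun i => (-e i).toNat))
    (h : V (X * P)) : ABC K := by
  obtain ⟨A, hA⟩ : ∃ A, A = mP a fun i => (e i).toNat := ⟨_, rfl⟩
  obtain ⟨B, hB⟩ : ∃ B, B = mP a fun i => (-e i).toNat := ⟨_, rfl⟩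
  obtain ⟨m, hm'⟩ : ∃ m, m = P.natDegree := ⟨_, rfl⟩
  rw [← hA, ← hB, ← hm'] at hc
  obtain ⟨Φ, hΦ⟩ : ∃ Φ, Φ = hm m P A B := ⟨_, rfl⟩
  obtain ⟨T, hT, hHT⟩ := crit ha he hsq hA hB hc
  rw [← hΦ] at hT
  have hP : P ≠ 0 := by
    rintro rfl
    simp at hP0
  -- degrees
  have dA : A.natDegree = ∑ i, (e i).toNat := by rw [hA, mP_deg]
  have dB : B.natDegree = ∑ i, (-e i).toNat := by rw [hB, mP_deg]
  have dAB : A.natDegree ≠ B.natDegree := by
    intro h0
    apply hs
    rw [dA, dB] at h0
    have h1 : ((∑ i, (e i).toNat : ℕ) : ℤ) = ((∑ i, (-e i).toNat : ℕ) : ℤ) := by rw [h0]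
    push_cast at h1
    have h2 : ∑ i, e i = ∑ i, (((e i).toNat : ℤ) - ((-e i).toNat : ℤ)) :=
      Finset.sum_congr rfl fun i _ => (Int.toNat_sub_toNat_neg (e i)).symm
    rw [h2, Finset.sum_sub_distrib]
    simp only [Int.ofNat_toNat] at h1 ⊢
    rw [h1, sub_self]
  obtain ⟨n, hn⟩ : ∃ n, n = max A.natDegree B.natDegree := ⟨_, rfl⟩
  have hAn : A.natDegree ≤ n := hn ▸ le_max_left _ _
  have hBn : B.natDegree ≤ n := hn ▸ le_max_right _ _
  have hor : A.natDegree = n ∨ B.natDegree = n := by
    rcases max_choice A.natDegree B.natDegree with h0 | h0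
    · exact Or.inl (by rw [hn, h0])
    · exact Or.inr (by rw [hn, h0])
  have hn1 : 1 ≤ n := by
    by_contra h0
    have : n = 0 := by omega
    omega
  have dΦ : Φ.natDegree ≤ n * m := by rw [hΦ]; exact hm_deg hAn hBn
  have hcop : IsCoprime A B := by
    rw [hB]
    unfold mP
    refine IsCoprime.prod_right fun i _ => ?_
    beta_reduce
    rcases Nat.eq_zero_or_pos (-e i).toNat with h0 | h0
    · rw [h0, pow_zero]
      exact isCoprime_one_right
    · refine IsCoprime.pow_right ?_
      have h1 : IsCoprime (X - C (a i)) A := by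
        rw [(irreducible_X_sub_C (a i)).coprime_iff_not_dvd, dvd_iff_isRoot, IsRoot.def, hA]
        unfold mP
        rw [eval_prod]
        refine Finset.prod_ne_zero_iff.2 fun j _ => ?_
        rw [eval_pow, eval_sub, eval_X, eval_C]
        beta_reduce
        by_cases hij : j = i
        · rw [hij, show (e i).toNat = 0 by omega, pow_zero]
          exact one_ne_zero
        · exact pow_ne_zero _ (sub_ne_zero.2 fun h2 => hij (ha h2).symm)
      exact h1.symm
  -- `Φ ≠ 0`
  have hΦ0 : Φ ≠ 0 := by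
    obtain ⟨i⟩ : Nonempty ι := Fintype.card_pos_iff.1 (by omega)
    intro h0
    have h1 : ∀ x : K, B.eval x ≠ 0 → P.eval (A.eval x / B.eval x) = 0 := by
      intro x hx
      have h2 := hm_eval (m := m) (P := P) (A := A) (B := B) hm'.ge hx
      rw [← hΦ, h0, eval_zero] at h2
      exact (mul_eq_zero.1 h2.symm).resolve_left (pow_ne_zero _ hx)
    rcases lt_or_gt_of_ne (he i) with h3 | h3
    · -- `B (a i) = 0`
      have hBi : B.eval (a i) = 0 := by
        rw [hB]
        unfold mP
        rw [eval_prod]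
        refine Finset.prod_eq_zero (Finset.mem_univ i) ?_
        rw [eval_pow, eval_sub, eval_X, eval_C, sub_self]
        exact zero_pow (by beta_reduce; omega)
      have hAi : A.eval (a i) ≠ 0 := by
        intro h4
        obtain ⟨u, v, huv⟩ := hcop
        have := congrArg (eval (a i)) huv
        rw [eval_add, eval_mul, eval_mul, h4, hBi, mul_zero, mul_zero, add_zero, eval_one] at this
        exact zero_ne_one this
      have h5 : Φ.eval (a i) = P.leadingCoeff * A.eval (a i) ^ m := by
        rw [hΦ]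
        unfold hm
        rw [eval_finsetSum, Finset.sum_eq_single m]
        · rw [eval_mul, eval_C, eval_mul, eval_pow, Nat.sub_self, pow_zero, eval_one, mul_one, hm']
          rfl
        · intro j hj hjm
          have hj' : j ≤ m := Nat.lt_succ_iff.1 (Finset.mem_range.1 hj)
          rw [eval_mul, eval_mul, eval_pow, eval_pow, hBi, zero_pow (by omega), mul_zero, mul_zero]
        · intro h6
          exact absurd (Finset.mem_range.2 (Nat.lt_succ_self m)) h6
      rw [h0, eval_zero] at h5
      exact mul_ne_zero (leadingCoeff_ne_zero.2 hP) (pow_ne_zero _ hAi) h5.symm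
    · have hAi : A.eval (a i) = 0 := by
        rw [hA]
        unfold mP
        rw [eval_prod]
        refine Finset.prod_eq_zero (Finset.mem_univ i) ?_
        rw [eval_pow, eval_sub, eval_X, eval_C, sub_self]
        exact zero_pow (by beta_reduce; omega)
      have hBi : B.eval (a i) ≠ 0 := by
        intro h4
        obtain ⟨u, v, huv⟩ := hcop
        have := congrArg (eval (a i)) huv
        rw [eval_add, eval_mul, eval_mul, h4, hAi, mul_zero, mul_zero, add_zero, eval_one] at this
        exact zero_ne_one this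
      have h5 := h1 (a i) hBi
      rw [hAi, zero_div] at h5
      exact hP0 h5
  have hT0 : T ≠ 0 := by
    rintro rfl
    exact hΦ0 (by rw [hT, mul_zero])
  have hH0 : mH a e ≠ 0 := hsq.ne_zero
  have hR0 := mR_ne a
  obtain ⟨G, hG⟩ : ∃ G, G = mR a * T := ⟨_, rfl⟩
  have hG0 : G ≠ 0 := by rw [hG]; exact mul_ne_zero hR0 hT0
  have dT : T.natDegree + (Fintype.card ι - 1) = Φ.natDegree := by
    rw [hT, natDegree_mul hH0 hT0, mH_deg a e hs]
    omega
  have dG : G.natDegree = Fintype.card ι + T.natDegree := by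
    rw [hG, natDegree_mul hR0 hT0, mR_deg]
  have dXP : (X * P).natDegree = m + 1 := by
    rw [natDegree_mul X_ne_zero hP, natDegree_X, hm', add_comm]
  obtain ⟨N, hN⟩ : ∃ N, N = ∑ i, (e i).natAbs := ⟨_, rfl⟩
  have hNi : ∀ i, (e i).natAbs ≤ N := fun i => by
    rw [hN]
    exact Finset.single_le_sum (f := fun i => (e i).natAbs) (fun _ _ => Nat.zero_le _)
      (Finset.mem_univ i)
  have hAR : A ∣ mR a ^ N := by
    rw [hA]
    exact mR_pow a _ fun i => le_trans (by omega) (hNi i)
  have hBR : B ∣ mR a ^ N := by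
    rw [hB]
    exact mR_pow a _ fun i => le_trans (by omega) (hNi i)
  have hdv : B * (A * Φ) ∣ G ^ (2 * N + 2) := by
    have h1 : B * A * (mH a e * T) ∣ mR a ^ N * mR a ^ N * (T * T) :=
      mul_dvd_mul (mul_dvd_mul hBR hAR) (mul_dvd_mul_right hHT T)
    rw [← hT] at h1
    have h2 : mR a ^ N * mR a ^ N * (T * T) ∣ G ^ (2 * N + 2) := by
      refine ⟨mR a ^ 2 * T ^ (2 * N), ?_⟩
      rw [hG, mul_pow]
      ring
    have h3 := h1.trans h2
    rwa [mul_assoc] at h3
  obtain ⟨M, hM⟩ := hdv
  have hV : V G := by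
    refine pull (F := X * P) (n := n) (k := 2 * N + 2) (A := A) (B := B) (H := A * Φ) (M := M) hn1
      hAn hBn hor hcop (by rw [dXP]; omega) (by rw [dG]; omega) ?_ ?_ hM h
    · rw [dXP, dG, Nat.add_sub_cancel]
      omega
    · intro x hx
      rw [dXP, eval_mul, hΦ, hm_eval hm'.ge hx, eval_mul, eval_X]
      field_simp
      ring
  -- two of the points
  obtain ⟨i, j, hij⟩ := Fintype.exists_pair_of_one_lt_card (show 1 < Fintype.card ι by omega)
  have hd2 : (X - C (a i)) * (X - C (a j)) ∣ G := by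
    rw [hG, mR_eq a i]
    refine Dvd.dvd.mul_right (mul_dvd_mul_left _ ?_) _
    unfold mE
    exact Finset.dvd_prod_of_mem _ (Finset.mem_erase.2 ⟨hij.symm, Finset.mem_univ _⟩)
  have hV2 : V ((X - C (a i)) * (X - C (a j))) := dvd_deg hG0 (by
    rw [natDegree_mul (X_sub_C_ne_zero _) (X_sub_C_ne_zero _), natDegree_X_sub_C,
      natDegree_X_sub_C]) hV hd2
  exact V_three.1 (two_points (fun h0 => hij (ha h0)) hV2)

end Pool.Agent.H79.AB
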