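import Pool.Agent.H79.AB.Ht
import Pool.Agent.H79.L.N746_RK_Glue

/-!
# Pulling back the inequality by a rational function
-/

set_option autoImplicit false

namespace Pool.Agent.H79.AB

open NumberField IsDedekindDomain Height Polynomial Pool.Agent.N757.RD Pool.Agent.N757.TL
  Pool.Agent.N746.RK

variable {K : Type} [Field K] [NumberField K]

/-- the primes at which some coefficient is not integral -/
def badP (P : K[X]) : Set (HeightOneSpectrum (𝓞 K)) := {v | ∃ i, 1 < FinitePlace.mk v (P.coeff i)}

theorem badP_fin (P : K[X]) : (badP P).Finite := by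
  have h : badP P ⊆ ⋃ i ∈ P.support, {v | 1 < FinitePlace.mk v (P.coeff i)} := by
    rintro v ⟨i, hi⟩
    simp only [Set.mem_iUnion]
    refine ⟨i, ?_, hi⟩
    rw [mem_support_iff]
    intro h0
    rw [h0, map_zero] at hi
    exact absurd hi (by norm_num)
  exact (Set.Finite.biUnion P.support.finite_toSet fun i _ => finite_gt _).subset h

theorem eval_le {P : K[X]} {v : HeightOneSpectrum (𝓞 K)} (hv : v ∉ badP P) {x : K}
    (hx : FinitePlace.mk v x ≤ 1) : FinitePlace.mk v (P.eval x) ≤ 1 := by
  have hc : ∀ i, FinitePlace.mk v (P.coeff i) ≤ 1 := by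
    intro i
    by_contra h
    exact hv ⟨i, not_le.1 h⟩
  rw [eval_eq_sum_range]
  generalize P.natDegree + 1 = m
  induction m with
  | zero => simp
  | succ m ih =>
    rw [Finset.sum_range_succ]
    refine (fin_add_le v _ _).trans (max_le ih ?_)
    rw [map_mul, map_pow]
    exact mul_le_one₀ (hc m) (by positivity) (pow_le_one₀ (by positivity) hx)

/-- **Pulling back the inequality for `∞` and the zeros of `F` by `A / B`.** -/
theorem pull {F G A B H M : K[X]} {n k : ℕ} (hn : 1 ≤ n) (hA : A.natDegree ≤ n)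
    (hB : B.natDegree ≤ n) (hAB : A.natDegree = n ∨ B.natDegree = n) (hc : IsCoprime A B)
    (hF : 2 ≤ F.natDegree) (hG : 2 ≤ G.natDegree)
    (hdeg : G.natDegree ≤ n * (F.natDegree - 1) + 1)
    (hH : ∀ x : K, B.eval x ≠ 0 →
      H.eval x = B.eval x ^ F.natDegree * F.eval (A.eval x / B.eval x))
    (hM : G ^ k = B * H * M) (h : V F) : V G := by
  obtain ⟨C, hC⟩ := ratio_ge hn hA hB hAB hc
  obtain ⟨f, hf⟩ : ∃ f : ℝ, f = (F.natDegree : ℝ) - 1 := ⟨_, rfl⟩
  obtain ⟨g, hg⟩ : ∃ g : ℝ, g = (G.natDegree : ℝ) - 1 := ⟨_, rfl⟩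
  have hf1 : 1 ≤ f := by
    have : (2 : ℝ) ≤ F.natDegree := by exact_mod_cast hF
    rw [hf]; linarith
  have hg1 : 1 ≤ g := by
    have : (2 : ℝ) ≤ G.natDegree := by exact_mod_cast hG
    rw [hg]; linarith
  have hgf : g ≤ f * n := by
    have h1 : ((G.natDegree : ℕ) : ℝ) ≤ ((n * (F.natDegree - 1) + 1 : ℕ) : ℝ) := by
      exact_mod_cast hdeg
    rw [Nat.cast_add, Nat.cast_mul, Nat.cast_sub (by omega)] at h1
    push_cast at h1
    rw [hg, hf]
    linarith
  have hg0 : 0 < g := by linarith
  obtain ⟨bd, hbd⟩ : ∃ bd : Set (HeightOneSpectrum (𝓞 K)), bd =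
    badP A ∪ badP B ∪ badP H ∪ badP M := ⟨_, rfl⟩
  have hbf : bd.Finite := by
    rw [hbd]
    exact (((badP_fin A).union (badP_fin B)).union (badP_fin H)).union (badP_fin M)
  have hev : ∀ x : K, G.eval x ^ k = B.eval x * H.eval x * M.eval x := by
    intro x
    rw [← eval_pow, hM, eval_mul, eval_mul]
  unfold V at h ⊢
  rw [← hf] at h
  rw [← hg]
  refine step (h := fun x : K => g * D x) (r := fun x => W (J G x))
    (h' := fun y : K => f * D y) (r' := fun y => W (J F y)) (N := f * n / g)
    (C := f * |C| + W bd) (P := fun x : K => G.eval x ≠ 0) (Q := fun y : K => F.eval y ≠ 0)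
    (fun x => mul_nonneg hg0.le (D_nonneg x)) (fun x => W_nonneg _)
    (by rw [le_div_iff₀ hg0, one_mul]; exact hgf)
    (add_nonneg (by positivity) (W_nonneg _)) ?_ h
  intro x hx
  right
  have hp := pow_ne_zero k hx
  rw [hev] at hp
  have hBx : B.eval x ≠ 0 := left_ne_zero_of_mul (left_ne_zero_of_mul hp)
  have hHx : H.eval x ≠ 0 := right_ne_zero_of_mul (left_ne_zero_of_mul hp)
  have hHH := hH x hBx
  obtain ⟨y, hy⟩ : ∃ y : K, y = A.eval x / B.eval x := ⟨_, rfl⟩
  rw [← hy] at hHH
  have hFy : F.eval y ≠ 0 := by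
    intro h0
    rw [h0, mul_zero] at hHH
    exact hHx hHH
  refine ⟨y, hFy, ?_, ?_⟩
  · have h1 := hC x
    rw [← hy] at h1
    change (n : ℝ) * D x ≤ D y + C at h1
    have h2 : f * ((n : ℝ) * D x) ≤ f * (D y + |C|) :=
      mul_le_mul_of_nonneg_left (h1.trans (by linarith [le_abs_self C])) (by linarith)
    have e : f * n / g * (g * D x) = f * ((n : ℝ) * D x) := by field_simp
    rw [e]
    have := W_nonneg bd
    linarith
  · have hsub : J F y ⊆ J G x ∪ bd := by
      intro p hp
      by_cases hpb : p ∈ bd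
      · exact Or.inr hpb
      left
      by_cases hx1 : 1 < FinitePlace.mk p x
      · exact Or.inl hx1
      right
      rw [hbd] at hpb
      simp only [Set.mem_union, not_or] at hpb
      obtain ⟨⟨⟨bA, bB⟩, bH⟩, bM⟩ := hpb
      have hx1' := not_lt.1 hx1
      have vA := eval_le bA hx1'
      have vB := eval_le bB hx1'
      have vH := eval_le bH hx1'
      have vM := eval_le bM hx1'
      have key : FinitePlace.mk p (B.eval x) * FinitePlace.mk p (H.eval x) < 1 →
          FinitePlace.mk p (G.eval x) < 1 := by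
        intro h1
        by_contra h2
        have h3 : 1 ≤ FinitePlace.mk p (G.eval x) ^ k := one_le_pow₀ (not_lt.1 h2)
        rw [← map_pow, hev, map_mul, map_mul] at h3
        have h4 : FinitePlace.mk p (B.eval x) * FinitePlace.mk p (H.eval x) *
            FinitePlace.mk p (M.eval x) ≤ FinitePlace.mk p (B.eval x) *
              FinitePlace.mk p (H.eval x) * 1 :=
          mul_le_mul_of_nonneg_left vM (by positivity)
        linarith
      apply key
      by_cases hb : FinitePlace.mk p (B.eval x) < 1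
      · calc FinitePlace.mk p (B.eval x) * FinitePlace.mk p (H.eval x)
            ≤ FinitePlace.mk p (B.eval x) * 1 := mul_le_mul_of_nonneg_left vH (by positivity)
          _ < 1 := by linarith
      · have hb1 : FinitePlace.mk p (B.eval x) = 1 := le_antisymm vB (not_lt.1 hb)
        rw [hb1, one_mul, hHH, map_mul, map_pow, hb1, one_pow, one_mul]
        rcases hp with h1 | h1
        · rw [hy, map_div₀, hb1, div_one] at h1
          linarith
        · exact h1
    have f1 := finite_J hx
    have g1 := W_mono hsub (f1.union hbf)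
    have g2 := W_union f1 hbf
    have g3 : 0 ≤ (f * n / g - 1) * (g * D x) := by
      refine mul_nonneg ?_ (mul_nonneg hg0.le (D_nonneg x))
      rw [sub_nonneg, le_div_iff₀ hg0, one_mul]
      exact hgf
    have g4 : 0 ≤ f * |C| := by positivity
    linarith

end Pool.Agent.H79.AB
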